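import Mathlib

set_option autoImplicit false

namespace Pool.Agent.H74.SQ

/-- `μ` is a product distribution: the bits are independent and `x_i = 1` has probability `q i`. -/
def IsProduct {n : ℕ} (μ : (Fin n → Bool) → ℝ) : Prop :=
  ∃ q : Fin n → ℝ, (∀ i, 0 ≤ q i ∧ q i ≤ 1) ∧ ∀ x, μ x = ∏ i, (if x i then q i else 1 - q i)

end Pool.Agent.H74.SQ
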