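import Pool.Agent.H74.SQ.LTF3
import Pool.Agent.H74.SQ.ProdDef

set_option autoImplicit false

namespace Pool.Agent.H74.SQ

open Finset

/-- weighted Cauchy-Schwarz inequality -/
lemma expect_cs {n : ℕ} (μ F g : (Fin n → Bool) → ℝ) (hμ : ∀ x, 0 ≤ μ x) :
    expect μ (fun x => F x * g x) ^ 2 ≤ expect μ (fun x => F x ^ 2) * expect μ (fun x => g x ^ 2) := by
  unfold expect
  have h := Finset.sum_mul_sq_le_sq_mul_sq (Finset.univ : Finset (Fin n → Bool))
    (fun x => Real.sqrt (μ x) * F x) (fun x => Real.sqrt (μ x) * g x)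
  have e0 : ∀ x, Real.sqrt (μ x) * Real.sqrt (μ x) = μ x := fun x => Real.mul_self_sqrt (hμ x)
  have e1 : ∑ x : Fin n → Bool, Real.sqrt (μ x) * F x * (Real.sqrt (μ x) * g x)
      = ∑ x, μ x * (F x * g x) := by
    refine Finset.sum_congr rfl fun x _ => ?_
    linear_combination (F x * g x) * (e0 x)
  have e2 : ∑ x : Fin n → Bool, (Real.sqrt (μ x) * F x) ^ 2 = ∑ x, μ x * F x ^ 2 := by
    refine Finset.sum_congr rfl fun x _ => ?_
    linear_combination (F x ^ 2) * (e0 x)
  have e3 : ∑ x : Fin n → Bool, (Real.sqrt (μ x) * g x) ^ 2 = ∑ x, μ x * g x ^ 2 := by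
    refine Finset.sum_congr rfl fun x _ => ?_
    linear_combination (g x ^ 2) * (e0 x)
  rw [e1, e2, e3] at h
  exact h

/-- Few functions of the family correlate with a fixed test function. -/
lemma count_one {n k : ℕ} (D μ : (Fin n → Bool) → ℝ) (hD : IsDist D) (hμ : ∀ x, 0 ≤ μ x)
    (lam : ℝ) (hl : 0 < lam) (hdom : ∀ x, lam * μ x ≤ D x)
    (f : Fin k → (Fin n → Bool) → ℝ) (hf : ∀ i x, f i x ^ 2 = 1) (γ : ℝ) (hγ : 0 ≤ γ)
    (hcorr : ∀ i j, i ≠ j → |expect D (fun x => f i x * f j x)| ≤ γ)
    (g : (Fin n → Bool) → ℝ) (w β : ℝ) (hw : 0 < w) (hβ : 0 ≤ β)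
    (hgw : expect μ (fun x => g x ^ 2) = w)
    (S : Finset (Fin k)) (hS : ∀ i ∈ S, β * w ≤ expect μ (fun x => f i x * g x) ^ 2) :
    (S.card : ℝ) * (lam * β - γ) ≤ 1 := by
  classical
  set c : Fin k → ℝ := fun i => expect μ (fun x => f i x * g x) with hc
  set F : (Fin n → Bool) → ℝ := fun x => ∑ i ∈ S, sg (c i) * f i x with hF
  have hFg : expect μ (fun x => F x * g x) = ∑ i ∈ S, |c i| := by
    have : (fun x => F x * g x) = fun x => ∑ i ∈ S, sg (c i) * (f i x * g x) := by
      funext x
      rw [hF]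
      simp only [Finset.sum_mul]
      exact Finset.sum_congr rfl fun i _ => by ring
    rw [this, expect_sum]
    refine Finset.sum_congr rfl fun i _ => ?_
    rw [expect_mul_left, sg_mul]
  have hlow : (S.card : ℝ) ^ 2 * (β * w) ≤ (∑ i ∈ S, |c i|) ^ 2 := by
    have h1 : (S.card : ℝ) * Real.sqrt (β * w) ≤ ∑ i ∈ S, |c i| := by
      rw [← nsmul_eq_mul]
      apply Finset.card_nsmul_le_sum
      intro i hi
      rw [← Real.sqrt_sq_eq_abs]
      exact Real.sqrt_le_sqrt (hS i hi)
    have h2 : ((S.card : ℝ) * Real.sqrt (β * w)) ^ 2 ≤ (∑ i ∈ S, |c i|) ^ 2 :=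
      pow_le_pow_left₀ (by positivity) h1 2
    rw [mul_pow, Real.sq_sqrt (by positivity)] at h2
    exact h2
  have hcs := expect_cs μ F g hμ
  rw [hFg, hgw] at hcs
  have hFD : lam * expect μ (fun x => F x ^ 2) ≤ expect D (fun x => F x ^ 2) := by
    unfold expect
    rw [Finset.mul_sum]
    apply Finset.sum_le_sum
    intro x _
    rw [← mul_assoc]
    exact mul_le_mul_of_nonneg_right (hdom x) (sq_nonneg _)
  have hFD2 : expect D (fun x => F x ^ 2) ≤ S.card + (S.card : ℝ) ^ 2 * γ := by
    have e1 : (fun x => F x ^ 2) = fun x => ∑ i ∈ S, ∑ j ∈ S,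
        (sg (c i) * sg (c j)) * (f i x * f j x) := by
      funext x
      rw [hF]
      simp only [sq]
      rw [Finset.sum_mul_sum]
      exact Finset.sum_congr rfl fun i _ => Finset.sum_congr rfl fun j _ => by ring
    rw [e1, expect_sum]
    have h2 : ∀ i ∈ S, expect D (fun x => ∑ j ∈ S, (sg (c i) * sg (c j)) * (f i x * f j x))
        ≤ 1 + (S.card : ℝ) * γ := by
      intro i hi
      rw [expect_sum]
      have h3 : ∀ j ∈ S, expect D (fun x => (sg (c i) * sg (c j)) * (f i x * f j x))
          ≤ (if i = j then (1 : ℝ) else 0) + γ := by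
        intro j _
        rw [expect_mul_left]
        by_cases hij : i = j
        · subst hij
          rw [sg_sq, one_mul, if_pos rfl]
          have : expect D (fun x => f i x * f i x) = 1 := by
            have h4 : (fun x => f i x * f i x) = fun _ => (1 : ℝ) := by
              funext x
              have := hf i x
              linarith [this, sq (f i x)]
            rw [h4, expect_const hD]
          rw [this]
          linarith
        · rw [if_neg hij, zero_add]
          have h4 : |sg (c i) * sg (c j) * expect D (fun x => f i x * f j x)| ≤ γ := by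
            rw [abs_mul, abs_mul, sg_abs, sg_abs, one_mul, one_mul]
            exact hcorr i j hij
          exact (le_abs_self _).trans h4
      refine (Finset.sum_le_sum h3).trans ?_
      rw [Finset.sum_add_distrib, Finset.sum_ite_eq, if_pos hi, Finset.sum_const, nsmul_eq_mul]
    refine (Finset.sum_le_sum h2).trans ?_
    rw [Finset.sum_const, nsmul_eq_mul]
    apply le_of_eq
    ring
  -- combine
  have h5 : lam * ((S.card : ℝ) ^ 2 * (β * w)) ≤ (S.card + (S.card : ℝ) ^ 2 * γ) * w := by
    calc lam * ((S.card : ℝ) ^ 2 * (β * w)) ≤ lam * (expect μ (fun x => F x ^ 2) * w) :=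
          mul_le_mul_of_nonneg_left (hlow.trans hcs) hl.le
      _ = (lam * expect μ (fun x => F x ^ 2)) * w := by ring
      _ ≤ (S.card + (S.card : ℝ) ^ 2 * γ) * w :=
          mul_le_mul_of_nonneg_right (hFD.trans hFD2) hw.le
  rcases Nat.eq_zero_or_pos S.card with h0 | hpos
  · rw [h0]; simp
  · have hc0 : (0 : ℝ) < S.card := by exact_mod_cast hpos
    have h6 : (S.card : ℝ) * w * ((S.card : ℝ) * (lam * β - γ)) ≤ (S.card : ℝ) * w * 1 := by
      nlinarith
    exact le_of_mul_le_mul_left h6 (mul_pos hc0 hw)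

/-- the representation by rare values -/
lemma product_rep {n : ℕ} (μ : (Fin n → Bool) → ℝ) (h : IsProduct μ) :
    ∃ (s : Fin n → Bool) (p : Fin n → ℝ), (∀ i, 0 ≤ p i) ∧ (∀ i, p i ≤ 1 / 2) ∧
      μ = prodW (wt s p) := by
  obtain ⟨q, hq, hμ⟩ := h
  refine ⟨fun i => decide (q i ≤ 1 / 2), fun i => if q i ≤ 1 / 2 then q i else 1 - q i, ?_, ?_, ?_⟩
  · intro i
    by_cases h : q i ≤ 1 / 2
    · simp only [h, if_true]; exact (hq i).1
    · simp only [h, if_false]; linarith [(hq i).2]
  · intro i
    by_cases h : q i ≤ 1 / 2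
    · simp only [h, if_true]
    · simp only [h, if_false]
      push Not at h
      linarith
  · funext x
    rw [hμ x]
    unfold prodW wt
    refine Finset.prod_congr rfl fun i _ => ?_
    by_cases h : q i ≤ 1 / 2
    · simp only [if_pos h, decide_eq_true h]
    · simp only [if_neg h, decide_eq_false h]
      cases hx : x i <;> simp

/-- halfspaces in terms of rare values -/
lemma halfspace_rep {n r : ℕ} (s : Fin n → Bool) (f : (Fin n → Bool) → ℝ)
    (hf : f ∈ SparseHalfspaces n r) :
    ∃ (v : Fin n → ℝ) (θ : ℝ), (Finset.univ.filter (fun i => v i ≠ 0)).card ≤ r ∧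
      f = FF s v θ := by
  obtain ⟨w, θ, hcard, hfx⟩ := hf
  refine ⟨fun i => if s i then w i else - w i, θ - ∑ i, (if s i then 0 else w i), ?_, ?_⟩
  · refine le_trans (le_of_eq ?_) hcard
    congr 1
    ext i
    simp only [Finset.mem_filter, Finset.mem_univ, true_and]
    cases s i <;> simp
  · funext x
    rw [hfx x]
    unfold FF
    have : ∑ i, (if s i then w i else - w i) * yy s i x
        = ∑ i, w i * (if x i then (1 : ℝ) else 0) - ∑ i, (if s i then 0 else w i) := by
      rw [← Finset.sum_sub_distrib]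
      refine Finset.sum_congr rfl fun i _ => ?_
      unfold yy
      cases s i <;> cases x i <;> simp
    rw [this]
    simp only [sub_le_sub_iff_right]

lemma halfspace_sq {n r : ℕ} (f : (Fin n → Bool) → ℝ)
    (hf : f ∈ SparseHalfspaces n r) (x : Fin n → Bool) : f x ^ 2 = 1 := by
  obtain ⟨w, θ, _, hfx⟩ := hf
  rw [hfx x]
  split_ifs <;> norm_num

/-- The upper bound for distributions dominating a multiple of a product distribution. -/
theorem upper {n r k : ℕ} (hr : 1 ≤ r) (D μ : (Fin n → Bool) → ℝ) (hD : IsDist D)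
    (hμ : IsProduct μ) (lam : ℝ) (hl : 0 < lam) (hdom : ∀ x, lam * μ x ≤ D x) (γ : ℝ)
    (hγ0 : 0 ≤ γ) (hγ : γ < lam / (57600 * r))
    (hfam : HasFamily (SparseHalfspaces n r) D γ k) :
    (k : ℝ) ≤ (n + 1) / (lam / (57600 * r) - γ) := by
  classical
  obtain ⟨s, p, hp0, hp2, rfl⟩ := product_rep μ hμ
  have hp1 : ∀ i, p i ≤ 1 := fun i => (hp2 i).trans (by norm_num)
  have hμD := wt_isDist s p hp0 hp1
  obtain ⟨f, hfC, hcorr⟩ := hfam
  have hrpos : (0 : ℝ) < r := by exact_mod_cast hr
  have hr1 : (1 : ℝ) ≤ r := by exact_mod_cast hr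
  -- test functions
  let g : Option (Fin n) → (Fin n → Bool) → ℝ := fun o x =>
    match o with
    | none => 1
    | some i => yy s i x - p i
  let w : Option (Fin n) → ℝ := fun o =>
    match o with
    | none => 1
    | some i => p i * (1 - p i)
  have hgw : ∀ o, expect (prodW (wt s p)) (fun x => g o x ^ 2) = w o := by
    intro o
    cases o with
    | none =>
      simp only [g, w, one_pow]
      exact expect_const hμD 1
    | some i => exact mom_two s p i
  have hex : ∀ j, ∃ o : Option (Fin n), 0 < w o ∧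
      1 / (57600 * r) * w o ≤ expect (prodW (wt s p)) (fun x => f j x * g o x) ^ 2 := by
    intro j
    obtain ⟨v, θ, hcard, hfj⟩ := halfspace_rep s (f j) (hfC j)
    rcases ltf_corr s p v θ hp0 hp2 r hr hcard with h | ⟨i, hi, h⟩
    · refine ⟨none, by simp [w], ?_⟩
      simp only [g, w, mul_one]
      rw [hfj]
      refine le_trans ?_ h
      rw [div_le_div_iff₀ (by positivity) (by positivity)]
      linarith
    · refine ⟨some i, hi, ?_⟩
      simp only [g, w]
      rw [hfj]
      refine le_trans ?_ h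
      rw [div_mul_eq_mul_div, one_mul]
      rw [div_le_div_iff₀ (by positivity) (by positivity)]
      nlinarith [mul_pos hi hrpos]
  choose o ho1 ho2 using hex
  have hcount : ∀ t : Option (Fin n),
      ((Finset.univ.filter (fun j => o j = t)).card : ℝ) * (lam / (57600 * r) - γ) ≤ 1 := by
    intro t
    by_cases hne : ∃ j, o j = t
    · obtain ⟨j₀, hj₀⟩ := hne
      have hwt : 0 < w t := hj₀ ▸ ho1 j₀
      have h := count_one D (prodW (wt s p)) hD hμD.1 lam hl hdom f
        (fun i x => halfspace_sq (f i) (hfC i) x) γ hγ0 hcorr (g t) (w t) (1 / (57600 * r)) hwt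
        (by positivity) (hgw t) (Finset.univ.filter (fun j => o j = t)) (by
          intro i hi
          simp only [Finset.mem_filter, Finset.mem_univ, true_and] at hi
          rw [← hi]
          exact ho2 i)
      rw [show lam * (1 / (57600 * (r : ℝ))) = lam / (57600 * r) by ring] at h
      exact h
    · have : (Finset.univ.filter (fun j => o j = t)) = ∅ := by
        apply Finset.filter_eq_empty_iff.mpr
        intro j _ hj
        exact hne ⟨j, hj⟩
      rw [this]
      simp
  have hk : (k : ℝ) = ∑ t : Option (Fin n), ((Finset.univ.filter (fun j => o j = t)).card : ℝ) := by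
    have h := Finset.card_eq_sum_card_fiberwise (s := (Finset.univ : Finset (Fin k)))
      (t := (Finset.univ : Finset (Option (Fin n)))) (f := o) (fun _ _ => Finset.mem_coe.mpr (Finset.mem_univ _))
    rw [Finset.card_univ, Fintype.card_fin] at h
    exact_mod_cast h
  have hpos : 0 < lam / (57600 * r) - γ := by linarith
  rw [le_div_iff₀ hpos, hk, Finset.sum_mul]
  refine (Finset.sum_le_sum fun t _ => hcount t).trans ?_
  rw [Finset.sum_const, Finset.card_univ, Fintype.card_option, Fintype.card_fin, nsmul_eq_mul,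
    mul_one]
  push_cast
  exact le_refl _

end Pool.Agent.H74.SQ
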