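import Mathlib

set_option autoImplicit false

/-!
Statistical query dimension of decision lists and sparse halfspaces: definitions.
-/

namespace Pool.Agent.H74.SQ

/-- `D` is a probability distribution on the cube of dimension `n`. -/
def IsDist {n : ℕ} (D : (Fin n → Bool) → ℝ) : Prop :=
  (∀ x, 0 ≤ D x) ∧ ∑ x, D x = 1

/-- The expectation of `g` under `D`. -/
def expect {n : ℕ} (D g : (Fin n → Bool) → ℝ) : ℝ := ∑ x, D x * g x

/-- `SQ-DIM(C, D, γ) ≥ k`: there are `k` functions in `C` with pairwise correlations at most `γ`. -/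
def HasFamily {n : ℕ} (C : Set ((Fin n → Bool) → ℝ)) (D : (Fin n → Bool) → ℝ) (γ : ℝ)
    (k : ℕ) : Prop :=
  ∃ f : Fin k → (Fin n → Bool) → ℝ, (∀ i, f i ∈ C) ∧
    ∀ i j, i ≠ j → |expect D (fun x => f i x * f j x)| ≤ γ

/-- `SQ-DIM(C, γ)`, the supremum over all distributions. -/
noncomputable def sqDim {n : ℕ} (C : Set ((Fin n → Bool) → ℝ)) (γ : ℝ) : ℕ∞ :=
  sSup {d : ℕ∞ | ∃ (k : ℕ) (D : (Fin n → Bool) → ℝ), d = k ∧ IsDist D ∧ HasFamily C D γ k}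

/-- Decision lists of length `r`: `ℓ k = (i, true)` is the literal `x_i`, and
`ℓ k = (i, false)` is the literal `1 - x_i`. -/
def DecisionLists (n r : ℕ) : Set ((Fin n → Bool) → ℝ) :=
  {f | ∃ (ℓ : Fin r → Fin n × Bool) (b : Fin r → ℝ) (b₀ : ℝ),
    (∀ k, b k = 1 ∨ b k = -1) ∧ (b₀ = 1 ∨ b₀ = -1) ∧
    ∀ x : Fin n → Bool,
      (∀ k, x (ℓ k).1 = (ℓ k).2 → (∀ j, j < k → x (ℓ j).1 ≠ (ℓ j).2) → f x = b k) ∧
      ((∀ k, x (ℓ k).1 ≠ (ℓ k).2) → f x = b₀)}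

/-- `r`-sparse halfspaces on the cube. -/
def SparseHalfspaces (n r : ℕ) : Set ((Fin n → Bool) → ℝ) :=
  {f | ∃ (w : Fin n → ℝ) (θ : ℝ), (Finset.univ.filter (fun i => w i ≠ 0)).card ≤ r ∧
    ∀ x : Fin n → Bool, f x = if θ ≤ ∑ i, w i * (if x i then 1 else 0) then 1 else -1}

end Pool.Agent.H74.SQ
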