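import Pool.Agent.H74.SQ.Lists

set_option autoImplicit false

namespace Pool.Agent.H74.SQ

open Finset Polynomial

/-- The polynomial with coefficient vector `a`. -/
noncomputable def polyOf {q m : ℕ} (a : Fin m → ZMod q) : (ZMod q)[X] :=
  ∑ i : Fin m, C (a i) * X ^ (i : ℕ)

lemma polyOf_coeff {q m : ℕ} (a : Fin m → ZMod q) (i : Fin m) :
    (polyOf a).coeff (i : ℕ) = a i := by
  classical
  unfold polyOf
  rw [finsetSum_coeff]
  rw [Finset.sum_eq_single i]
  · simp
  · intro j _ hj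
    rw [coeff_C_mul, coeff_X_pow]
    have : (i : ℕ) ≠ (j : ℕ) := fun h => hj (Fin.ext h.symm)
    simp [this]
  · simp

lemma polyOf_degree {q m : ℕ} (a : Fin m → ZMod q) : (polyOf a).degree < m := by
  rw [← mem_degreeLT]
  unfold polyOf
  refine Submodule.sum_mem _ fun i _ => ?_
  rw [mem_degreeLT]
  refine (degree_C_mul_X_pow_le _ _).trans_lt ?_
  exact_mod_cast i.2

lemma polyOf_agree {q m r : ℕ} [Fact q.Prime] (hr : r ≤ q) (a b : Fin m → ZMod q) (hab : a ≠ b) :
    (Finset.univ.filter (fun j : Fin r =>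
      (polyOf a).eval ((j : ℕ) : ZMod q) = (polyOf b).eval ((j : ℕ) : ZMod q))).card ≤ m - 1 := by
  classical
  set R := polyOf a - polyOf b with hR
  have hR0 : R ≠ 0 := by
    intro h
    apply hab
    funext i
    have := congrArg (fun P => P.coeff (i : ℕ)) h
    simp only [hR, coeff_sub, coeff_zero, polyOf_coeff] at this
    exact sub_eq_zero.mp this
  have hRd : R.degree < m := (degree_sub_le _ _).trans_lt (max_lt (polyOf_degree a) (polyOf_degree b))
  have hRn : R.natDegree ≤ m - 1 := by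
    have := (natDegree_lt_iff_degree_lt hR0).mpr hRd
    omega
  have hcard : R.roots.toFinset.card ≤ m - 1 :=
    (Multiset.toFinset_card_le _).trans ((card_roots' R).trans hRn)
  refine le_trans ?_ hcard
  apply Finset.card_le_card_of_injOn (fun j : Fin r => ((j : ℕ) : ZMod q))
  · intro j hj
    simp only [Finset.coe_filter, Finset.mem_univ, true_and, Set.mem_ofPred_eq] at hj
    simp only [Finset.mem_coe, Multiset.mem_toFinset]
    rw [mem_roots hR0, IsRoot, hR, eval_sub, hj, sub_self]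
  · intro i _ j _ hij
    have h : ((i : ℕ) : ZMod q) = ((j : ℕ) : ZMod q) := hij
    have hi : (i : ℕ) < q := lt_of_lt_of_le i.2 hr
    have hj : (j : ℕ) < q := lt_of_lt_of_le j.2 hr
    have := congrArg ZMod.val h
    rw [ZMod.val_natCast_of_lt hi, ZMod.val_natCast_of_lt hj] at this
    exact Fin.ext this

/-- The position of the `j`-th literal of the list with coefficient vector `a`. -/
noncomputable def pos {q m r n : ℕ} [Fact q.Prime] (hrq : r * q ≤ n) (a : Fin m → ZMod q)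
    (j : Fin r) : Fin n :=
  ⟨(j : ℕ) * q + ((polyOf a).eval ((j : ℕ) : ZMod q)).val, by
    have h1 : ((polyOf a).eval ((j : ℕ) : ZMod q)).val < q := ZMod.val_lt _
    have h2 : (j : ℕ) + 1 ≤ r := j.2
    calc (j : ℕ) * q + ((polyOf a).eval ((j : ℕ) : ZMod q)).val
        < (j : ℕ) * q + q := by omega
      _ = ((j : ℕ) + 1) * q := by ring
      _ ≤ r * q := Nat.mul_le_mul_right q h2
      _ ≤ n := hrq⟩

lemma pos_eq {q m r n : ℕ} [Fact q.Prime] (hrq : r * q ≤ n) (a b : Fin m → ZMod q)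
    (i j : Fin r) (h : pos hrq a i = pos hrq b j) :
    i = j ∧ (polyOf a).eval ((i : ℕ) : ZMod q) = (polyOf b).eval ((j : ℕ) : ZMod q) := by
  have h0 := congrArg Fin.val h
  simp only [pos] at h0
  have hq : 0 < q := (Fact.out : q.Prime).pos
  have h1 : ((polyOf a).eval ((i : ℕ) : ZMod q)).val < q := ZMod.val_lt _
  have h2 : ((polyOf b).eval ((j : ℕ) : ZMod q)).val < q := ZMod.val_lt _
  have hij : (i : ℕ) = (j : ℕ) := by
    have e1 : ((i : ℕ) * q + ((polyOf a).eval ((i : ℕ) : ZMod q)).val) / q = (i : ℕ) := by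
      rw [mul_comm, Nat.mul_add_div hq, Nat.div_eq_of_lt h1, add_zero]
    have e2 : ((j : ℕ) * q + ((polyOf b).eval ((j : ℕ) : ZMod q)).val) / q = (j : ℕ) := by
      rw [mul_comm, Nat.mul_add_div hq, Nat.div_eq_of_lt h2, add_zero]
    rw [← e1, ← e2, h0]
  refine ⟨Fin.ext hij, ?_⟩
  rw [hij] at h0 ⊢
  exact ZMod.val_injective q (by omega)

theorem family {n r q m : ℕ} (hq : q.Prime) (hr : r ≤ q) (hrq : r * q ≤ n)
    (p : ℝ) (h0 : 0 ≤ p) (h1 : p ≤ 1) (γ : ℝ)
    (hγ : 2 * ((m - 1 : ℕ) : ℝ) * p + (p + (1 - p) ^ r + 2 * ((m - 1 : ℕ) : ℝ) * p) ^ 2 ≤ γ) :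
    HasFamily (DecisionLists n r) (prodW (fun _ : Fin n => bw p)) γ (q ^ m) := by
  classical
  have : Fact q.Prime := ⟨hq⟩
  have hcard : Fintype.card (Fin m → ZMod q) = q ^ m := by
    rw [Fintype.card_fun, ZMod.card, Fintype.card_fin]
  let e : Fin (q ^ m) ≃ (Fin m → ZMod q) := (Fintype.equivFinOfCardEq hcard).symm
  refine ⟨fun t x => lv r (fun j => x (pos hrq (e t) j)), fun t => mem_lists _, ?_⟩
  intro s t hst
  refine (corr_bound p h0 h1 (pos hrq (e s)) (pos hrq (e t)) ?_ ?_ ?_ (m - 1) ?_).trans hγ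
  · intro i j h; exact (pos_eq hrq _ _ i j h).1
  · intro i j h; exact (pos_eq hrq _ _ i j h).1
  · intro i j hij h; exact hij (pos_eq hrq _ _ i j h).1
  · refine le_trans (Finset.card_le_card ?_) (polyOf_agree hr (e s) (e t) (fun h => hst (e.injective h)))
    intro j hj
    simp only [Finset.mem_filter, Finset.mem_univ, true_and] at hj ⊢
    exact (pos_eq hrq _ _ j j hj).2

theorem sqDim_ge {n : ℕ} {C : Set ((Fin n → Bool) → ℝ)} {D : (Fin n → Bool) → ℝ} {γ : ℝ} {k : ℕ}
    (hD : IsDist D) (h : HasFamily C D γ k) : (k : ℕ∞) ≤ sqDim C γ :=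
  le_sSup ⟨k, D, rfl, hD, h⟩

theorem bw_isDist {n : ℕ} (p : ℝ) (h0 : 0 ≤ p) (h1 : p ≤ 1) :
    IsDist (prodW (fun _ : Fin n => bw p)) := by
  apply prodW_isDist
  · intro i b
    cases b <;> simp [bw] <;> linarith
  · intro i; exact bw_sum p

end Pool.Agent.H74.SQ
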