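import Pool.Agent.H74.SQ.Defs

set_option autoImplicit false

namespace Pool.Agent.H74.SQ

open Finset

/-- the sum defining the halfspace of a decision list -/
lemma sum_sign_aux : ∀ (r : ℕ) (t : Fin r → Prop) (_ : DecidablePred t) (b : Fin r → ℝ) (b₀ : ℝ),
    (∀ k, b k = 1 ∨ b k = -1) → (b₀ = 1 ∨ b₀ = -1) →
    (∀ k, t k → (∀ j, j < k → ¬ t j) →
      |∑ j : Fin r, (if t j then (2 : ℝ) ^ (r - (j : ℕ)) * b j else 0) + b₀ - 2 ^ (r - (k : ℕ)) * b k|
        ≤ 2 ^ (r - (k : ℕ)) - 1) ∧
    (|∑ j : Fin r, (if t j then (2 : ℝ) ^ (r - (j : ℕ)) * b j else 0) + b₀| ≤ 2 ^ (r + 1) - 1) := by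
  intro r
  induction r with
  | zero =>
    intro t _ b b₀ hb hb₀
    refine ⟨fun k => k.elim0, ?_⟩
    rcases hb₀ with h | h <;> simp [h] <;> norm_num
  | succ r ih =>
    intro t ht b b₀ hb hb₀
    have hsum : ∑ j : Fin (r + 1), (if t j then (2 : ℝ) ^ (r + 1 - (j : ℕ)) * b j else 0)
        = (if t 0 then (2 : ℝ) ^ (r + 1) * b 0 else 0)
          + ∑ j : Fin r, (if t j.succ then (2 : ℝ) ^ (r - (j : ℕ)) * b j.succ else 0) := by
      rw [Fin.sum_univ_succ]
      simp
    obtain ⟨i1, i2⟩ := ih (fun j => t j.succ) (fun j => ht j.succ) (fun j => b j.succ) b₀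
      (fun k => hb _) hb₀
    rw [hsum]
    constructor
    · intro k hk hj
      by_cases h0 : k = 0
      · subst h0
        simp only [hk, if_true, Fin.val_zero, Nat.sub_zero]
        have e : (2 : ℝ) ^ (r + 1) * b 0 + ∑ j : Fin r, (if t j.succ then (2 : ℝ) ^ (r - (j : ℕ)) * b j.succ else 0)
            + b₀ - 2 ^ (r + 1) * b 0
            = ∑ j : Fin r, (if t j.succ then (2 : ℝ) ^ (r - (j : ℕ)) * b j.succ else 0) + b₀ := by ring
        rw [e]
        exact i2
      · obtain ⟨k', rfl⟩ := Fin.exists_succ_eq_of_ne_zero h0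
        have hu0 : ¬ t 0 := hj 0 (Fin.succ_pos k')
        simp only [hu0, if_false, zero_add]
        have := i1 k' hk (fun j hjk => hj j.succ (Fin.succ_lt_succ_iff.mpr hjk))
        simpa using this
    · by_cases h0 : t 0
      · simp only [h0, if_true]
        have hb0 : |b 0| = 1 := by rcases hb 0 with h | h <;> simp [h]
        have : |(2 : ℝ) ^ (r + 1) * b 0| = 2 ^ (r + 1) := by
          rw [abs_mul, hb0, mul_one, abs_of_nonneg (by positivity)]
        have h3 := abs_add_le ((2 : ℝ) ^ (r + 1) * b 0)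
          (∑ j : Fin r, (if t j.succ then (2 : ℝ) ^ (r - (j : ℕ)) * b j.succ else 0) + b₀)
        rw [← add_assoc] at h3
        have h4 : (2 : ℝ) ^ (r + 1 + 1) = 2 * 2 ^ (r + 1) := by ring
        rw [h4]
        linarith
      · simp only [h0, if_false, zero_add]
        have h4 : (2 : ℝ) ^ (r + 1 + 1) = 2 * 2 ^ (r + 1) := by ring
        have : (0 : ℝ) < 2 ^ (r + 1) := by positivity
        rw [h4]
        linarith

/-- Every decision list of length `r` is an `r`-sparse halfspace. -/
theorem lists_subset_halfspaces (n r : ℕ) : DecisionLists n r ⊆ SparseHalfspaces n r := by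
  classical
  rintro f ⟨ℓ, b, b₀, hb, hb₀, hf⟩
  let sg : Fin r → ℝ := fun k => if (ℓ k).2 then 1 else -1
  let c : Fin r → ℝ := fun k => 2 ^ (r - (k : ℕ)) * b k
  refine ⟨fun i => ∑ k : Fin r, (if (ℓ k).1 = i then c k * sg k else 0),
    -(b₀ + ∑ k : Fin r, (if (ℓ k).2 then 0 else c k)), ?_, ?_⟩
  · have hsub : (Finset.univ.filter (fun i : Fin n => ∑ k : Fin r, (if (ℓ k).1 = i then c k * sg k else 0) ≠ 0))
        ⊆ Finset.univ.image (fun k => (ℓ k).1) := by
      intro i hi
      simp only [Finset.mem_filter, Finset.mem_univ, true_and] at hi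
      obtain ⟨k, _, hk⟩ := Finset.exists_ne_zero_of_sum_ne_zero hi
      refine Finset.mem_image.mpr ⟨k, Finset.mem_univ _, ?_⟩
      by_contra hcon
      exact hk (if_neg hcon)
    refine (Finset.card_le_card hsub).trans (Finset.card_image_le.trans ?_)
    simp
  · intro x
    have key : ∑ i : Fin n, (∑ k : Fin r, (if (ℓ k).1 = i then c k * sg k else 0)) * (if x i then (1 : ℝ) else 0)
        + (b₀ + ∑ k : Fin r, (if (ℓ k).2 then 0 else c k))
        = ∑ k : Fin r, (if x (ℓ k).1 = (ℓ k).2 then c k else 0) + b₀ := by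
      have e1 : ∑ i : Fin n, (∑ k : Fin r, (if (ℓ k).1 = i then c k * sg k else 0)) * (if x i then (1 : ℝ) else 0)
          = ∑ k : Fin r, c k * sg k * (if x (ℓ k).1 then (1 : ℝ) else 0) := by
        simp_rw [Finset.sum_mul]
        rw [Finset.sum_comm]
        refine Finset.sum_congr rfl fun k _ => ?_
        rw [Finset.sum_eq_single (ℓ k).1]
        · simp
        · intro i _ hi
          simp [hi.symm]
        · simp
      rw [e1]
      have e2 : ∀ k : Fin r, c k * sg k * (if x (ℓ k).1 then (1 : ℝ) else 0) + (if (ℓ k).2 then 0 else c k)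
          = (if x (ℓ k).1 = (ℓ k).2 then c k else 0) := by
        intro k
        cases h1 : (ℓ k).2 <;> cases h2 : x (ℓ k).1 <;> simp [sg, h1]
      rw [← Finset.sum_congr rfl fun k _ => e2 k, Finset.sum_add_distrib]
      ring
    have haux := sum_sign_aux r (fun k => x (ℓ k).1 = (ℓ k).2) (fun k => inferInstance) b b₀ hb hb₀
    by_cases hex : ∃ k, x (ℓ k).1 = (ℓ k).2
    · -- first hit
      obtain ⟨k, hk, hmin⟩ : ∃ k, x (ℓ k).1 = (ℓ k).2 ∧ ∀ j, j < k → x (ℓ j).1 ≠ (ℓ j).2 := by
        have hne : (Finset.univ.filter (fun k : Fin r => x (ℓ k).1 = (ℓ k).2)).Nonempty := by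
          obtain ⟨k, hk⟩ := hex
          exact ⟨k, by simp [hk]⟩
        refine ⟨Finset.min' _ hne, ?_, ?_⟩
        · have := Finset.min'_mem _ hne
          simpa using this
        · intro j hj hcon
          have := Finset.min'_le (Finset.univ.filter (fun k : Fin r => x (ℓ k).1 = (ℓ k).2)) j (by simp [hcon])
          exact absurd hj (not_lt.mpr this)
      rw [(hf x).1 k hk hmin]
      have h1 := haux.1 k hk hmin
      have hpow : (1 : ℝ) ≤ 2 ^ (r - (k : ℕ)) := one_le_pow₀ (by norm_num)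
      rcases hb k with hbk | hbk
      · rw [hbk, if_pos]
        rw [hbk, mul_one] at h1
        have := (abs_le.mp h1).1
        linarith
      · rw [hbk, if_neg]
        rw [hbk] at h1
        have := (abs_le.mp h1).2
        intro hcon
        linarith
    · push Not at hex
      rw [(hf x).2 hex]
      have h0 : ∑ k : Fin r, (if x (ℓ k).1 = (ℓ k).2 then c k else 0) = 0 :=
        Finset.sum_eq_zero fun k _ => if_neg (hex k)
      rw [h0, zero_add] at key
      rcases hb₀ with h | h
      · rw [h] at key ⊢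
        rw [if_pos]
        linarith
      · rw [h] at key ⊢
        rw [if_neg]
        intro hcon
        linarith

theorem sqDim_mono {n : ℕ} {C C' : Set ((Fin n → Bool) → ℝ)} (h : C ⊆ C') (γ : ℝ) :
    sqDim C γ ≤ sqDim C' γ := by
  apply sSup_le_sSup
  rintro d ⟨k, D, hd, hD, f, hf, hc⟩
  exact ⟨k, D, hd, hD, f, fun i => h (hf i), hc⟩

end Pool.Agent.H74.SQ
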