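import Pool.Agent.H74.SQ.Moments

set_option autoImplicit false

namespace Pool.Agent.H74.SQ

open Finset

/-- sign with value one at zero -/
noncomputable def sg (z : ℝ) : ℝ := if 0 ≤ z then 1 else -1

lemma sg_abs (z : ℝ) : |sg z| = 1 := by
  unfold sg; split_ifs <;> simp

lemma sg_sq (z : ℝ) : sg z * sg z = 1 := by
  unfold sg; split_ifs <;> simp

lemma sg_mul (z : ℝ) : sg z * z = |z| := by
  unfold sg
  split_ifs with h
  · rw [abs_of_nonneg h, one_mul]
  · rw [abs_of_neg (not_le.mp h)]; ring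

/-- pointwise inequality -/
lemma pointwise {ι : Type*} (T : ℝ) (hT : 0 < T) (v : ι → ℝ) (S : Finset ι)
    (hS : ∀ i ∈ S, T < |v i|) (a : ℝ) :
    |a| * (1 - 2 * (S.card : ℝ)) + T * S.card - 2 * a ^ 2 * S.card / T
        - 2 * T * ((S.card : ℝ) ^ 2 - S.card)
      ≤ sg (a + ∑ i ∈ S, v i) * (a + T * ∑ i ∈ S, sg (v i)) := by
  classical
  have hlow : -(|a| + T * S.card) ≤ sg (a + ∑ i ∈ S, v i) * (a + T * ∑ i ∈ S, sg (v i)) := by
    have h1 : |sg (a + ∑ i ∈ S, v i) * (a + T * ∑ i ∈ S, sg (v i))| ≤ |a| + T * S.card := by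
      rw [abs_mul, sg_abs, one_mul]
      refine (abs_add_le _ _).trans ?_
      have : |T * ∑ i ∈ S, sg (v i)| ≤ T * S.card := by
        rw [abs_mul, abs_of_pos hT]
        apply mul_le_mul_of_nonneg_left _ hT.le
        refine (Finset.abs_sum_le_sum_abs _ _).trans ?_
        simp [sg_abs]
      linarith
    exact (abs_le.mp h1).1
  rcases Nat.lt_or_ge S.card 2 with h | h
  · interval_cases hc : S.card
    · have : S = ∅ := Finset.card_eq_zero.mp hc
      subst this
      simp [sg_mul]
    · obtain ⟨i, rfl⟩ := Finset.card_eq_one.mp hc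
      simp only [Finset.sum_singleton] at hlow ⊢
      have hvi : T < |v i| := hS i (Finset.mem_singleton_self i)
      have hq : 0 ≤ a ^ 2 / T := div_nonneg (sq_nonneg _) hT.le
      have e : |a| * (1 - 2 * ((1 : ℕ) : ℝ)) + T * ((1 : ℕ) : ℝ) - 2 * a ^ 2 * ((1 : ℕ) : ℝ) / T
        - 2 * T * (((1 : ℕ) : ℝ) ^ 2 - ((1 : ℕ) : ℝ)) = -|a| + T - 2 * (a ^ 2 / T) := by
        push_cast; ring
      rw [e]
      by_cases hav : |a| < |v i|
      · have hsg : sg (a + v i) = sg (v i) := by
          rcases lt_or_ge (v i) 0 with hv | hv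
          · have h1 : sg (v i) = -1 := by unfold sg; rw [if_neg (not_le.mpr hv)]
            have h2 : sg (a + v i) = -1 := by
              unfold sg; rw [if_neg]
              rw [abs_of_neg hv] at hav
              have := (abs_lt.mp hav).2
              linarith
            rw [h1, h2]
          · have h1 : sg (v i) = 1 := by unfold sg; rw [if_pos hv]
            have h2 : sg (a + v i) = 1 := by
              unfold sg; rw [if_pos]
              rw [abs_of_nonneg hv] at hav
              have := (abs_lt.mp hav).1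
              linarith
            rw [h1, h2]
        rw [hsg]
        have h3 : sg (v i) * (a + T * sg (v i)) = sg (v i) * a + T := by
          have := sg_sq (v i)
          linear_combination T * this
        rw [h3]
        have h4 : -|a| ≤ sg (v i) * a := by
          have : |sg (v i) * a| ≤ |a| := by rw [abs_mul, sg_abs, one_mul]
          exact (abs_le.mp this).1
        linarith
      · push Not at hav
        have h1 : T ≤ |a| := by linarith
        have h2 : T ≤ a ^ 2 / T := by
          rw [le_div_iff₀ hT, ← sq_abs a]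
          nlinarith
        simp only [Nat.cast_one, mul_one] at hlow
        linarith
  · have h2 : (2 : ℝ) ≤ S.card := by exact_mod_cast h
    refine le_trans ?_ hlow
    have hq : 0 ≤ 2 * a ^ 2 * S.card / T := by positivity
    have h3 : |a| * (2 - 2 * (S.card : ℝ)) ≤ 0 :=
      mul_nonpos_of_nonneg_of_nonpos (abs_nonneg _) (by linarith)
    have h4 : 2 * T * (S.card : ℝ) * (2 - (S.card : ℝ)) ≤ 0 :=
      mul_nonpos_of_nonneg_of_nonpos (by positivity) (by linarith)
    nlinarith

/-- quartic lower bound for the absolute value -/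
lemma abs_ge (a T : ℝ) (hT : 0 < T) : a ^ 2 / (3 * T) - a ^ 4 / (108 * T ^ 3) ≤ |a| := by
  set z := |a| / (3 * T) with hz
  have h3 : 0 < 3 * T := by positivity
  have hz0 : 0 ≤ z := div_nonneg (abs_nonneg _) h3.le
  have ha : |a| = 3 * T * z := by rw [hz]; field_simp
  have ha2 : a ^ 2 = 9 * T ^ 2 * z ^ 2 := by rw [← sq_abs a, ha]; ring
  have ha4 : a ^ 4 = 81 * T ^ 4 * z ^ 4 := by
    rw [show a ^ 4 = (a ^ 2) ^ 2 by ring, ha2]; ring
  rw [ha2, ha4, ha]
  have e1 : 9 * T ^ 2 * z ^ 2 / (3 * T) = 3 * T * z ^ 2 := by field_simp; ring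
  have e2 : 81 * T ^ 4 * z ^ 4 / (108 * T ^ 3) = 3 * T * (z ^ 4 / 4) := by field_simp; ring
  rw [e1, e2, ← mul_sub]
  apply mul_le_mul_of_nonneg_left _ h3.le
  -- z^2 - z^4/4 ≤ z
  nlinarith [mul_nonneg hz0 (sq_nonneg (z - 1)), mul_nonneg hz0 (sq_nonneg (z ^ 2 - 4 / 3)),
    mul_nonneg hz0 hz0, mul_nonneg (mul_nonneg hz0 hz0) hz0, sq_nonneg (z ^ 2 - z), mul_nonneg hz0 (sq_nonneg (z - 5/4))]

end Pool.Agent.H74.SQ
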