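import Pool.Agent.H74.SQ.LTF

set_option autoImplicit false

namespace Pool.Agent.H74.SQ

open Finset

section
variable {n : ℕ} (s : Fin n → Bool) (p v : Fin n → ℝ) (θ : ℝ)

/-- the threshold function -/
noncomputable def FF (x : Fin n → Bool) : ℝ := if θ ≤ ∑ i, v i * yy s i x then 1 else -1

lemma FF_eq (x : Fin n → Bool) : FF s v θ x = sg ((∑ i, v i * yy s i x) - θ) := by
  unfold FF sg
  simp only [sub_nonneg]

/-- small indices -/
noncomputable def SA (T : ℝ) : Finset (Fin n) := Finset.univ.filter (fun i => |v i| ≤ T)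

/-- big indices -/
noncomputable def SB (T : ℝ) : Finset (Fin n) := Finset.univ.filter (fun i => T < |v i|)

lemma sum_split (T : ℝ) (g : Fin n → ℝ) : ∑ i, g i = ∑ i ∈ SA v T, g i + ∑ i ∈ SB v T, g i := by
  classical
  unfold SA SB
  have := Finset.sum_filter_add_sum_filter_not (Finset.univ : Finset (Fin n)) (fun i => |v i| ≤ T) g
  rw [← this]
  simp only [not_le]

lemma disj (T : ℝ) : Disjoint ((SA v T : Finset (Fin n)) : Set (Fin n)) (SB v T : Set (Fin n)) := by
  rw [Set.disjoint_left]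
  intro i h1 h2
  simp only [SA, SB, Finset.coe_filter, Finset.mem_univ, true_and, Set.mem_ofPred_eq] at h1 h2
  linarith

/-- sum over `B` with the indicator equals a sum over hit indices -/
lemma sum_yy (B : Finset (Fin n)) (c : Fin n → ℝ) (x : Fin n → Bool) :
    ∑ i ∈ B, c i * yy s i x = ∑ i ∈ B.filter (fun i => x i = s i), c i := by
  rw [Finset.sum_filter]
  refine Finset.sum_congr rfl fun i _ => ?_
  unfold yy
  split_ifs <;> simp

/-- number of hits in `B` -/
noncomputable def NN (B : Finset (Fin n)) (x : Fin n → Bool) : ℝ := ∑ i ∈ B, yy s i x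

lemma NN_card (B : Finset (Fin n)) (x : Fin n → Bool) :
    NN s B x = ((B.filter (fun i => x i = s i)).card : ℝ) := by
  unfold NN
  have := sum_yy s B (fun _ => 1) x
  simp only [one_mul] at this
  rw [this]
  simp

lemma NN_mean (h0 : ∀ i, 0 ≤ p i) (h1 : ∀ i, p i ≤ 1) (B : Finset (Fin n)) :
    expect (prodW (wt s p)) (NN s B) = ∑ i ∈ B, p i := by
  have e : NN s B = fun x => ∑ i ∈ B, yy s i x := rfl
  rw [e, expect_sum]
  refine Finset.sum_congr rfl fun i _ => ?_
  rw [expect_wt s p i (fun z => z)]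
  ring

lemma NN_two (h0 : ∀ i, 0 ≤ p i) (h1 : ∀ i, p i ≤ 1) (B : Finset (Fin n)) :
    expect (prodW (wt s p)) (fun x => NN s B x ^ 2) ≤ ∑ i ∈ B, p i + (∑ i ∈ B, p i) ^ 2 := by
  set P := ∑ i ∈ B, p i with hP
  have e : (fun x => NN s B x ^ 2) = fun x => GG s p (fun _ => 1) B x ^ 2
      + ((2 * P) * GG s p (fun _ => 1) B x + P ^ 2) := by
    funext x
    have : NN s B x = GG s p (fun _ => 1) B x + P := by
      unfold NN GG
      rw [hP, ← Finset.sum_add_distrib]
      refine Finset.sum_congr rfl fun i _ => ?_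
      ring
    rw [this]
    ring
  rw [e, expect_add, expect_add, expect_mul_left, GG_mean, GG_two s p _ h0 h1,
    expect_const (wt_isDist s p h0 h1)]
  have : VV p (fun _ => 1) B ≤ P := by
    unfold VV
    rw [hP]
    apply Finset.sum_le_sum
    intro i _
    have := h0 i
    nlinarith [h0 i, h1 i]
  linarith

lemma indepAB (h0 : ∀ i, 0 ≤ p i) (h1 : ∀ i, p i ≤ 1) (T : ℝ) (φ : ℝ → ℝ) :
    expect (prodW (wt s p)) (fun x => φ (GG s p v (SA v T) x) * NN s (SB v T) x)
      = expect (prodW (wt s p)) (fun x => φ (GG s p v (SA v T) x)) * ∑ i ∈ SB v T, p i := by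
  rw [← NN_mean s p h0 h1]
  apply expect_mul_indep _ (SA v T : Set (Fin n)) (SB v T : Set (Fin n)) (disj v T)
  · exact dep_sum s (SA v T) v p φ
  · intro x y h
    unfold NN
    refine Finset.sum_congr rfl fun i hi => ?_
    unfold yy
    rw [h i hi]
  · exact (wt_isDist s p h0 h1).2

/-- Case of a far threshold. -/
lemma far_case (h0 : ∀ i, 0 ≤ p i) (h1 : ∀ i, p i ≤ 1) (T : ℝ) (hT : 0 < T)
    (hP : ∑ i ∈ SB v T, p i ≤ 1 / 12) (hV : VV p v (SA v T) ≤ T ^ 2 / 24)
    (ht : T / 2 < |θ - ∑ i ∈ SA v T, v i * p i|) :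
    1 / 2 ≤ |expect (prodW (wt s p)) (FF s v θ)| := by
  set t := θ - ∑ i ∈ SA v T, v i * p i with htdef
  have hD := wt_isDist s p h0 h1
  have pt : ∀ x, 1 - 2 * NN s (SB v T) x - 8 / T ^ 2 * GG s p v (SA v T) x ^ 2
      ≤ (-sg t) * FF s v θ x := by
    intro x
    have hfs : |(-sg t) * FF s v θ x| = 1 := by
      rw [abs_mul, abs_neg, sg_abs, FF_eq, sg_abs, one_mul]
    have hlow : -1 ≤ (-sg t) * FF s v θ x := by
      have := (abs_le.mp hfs.le).1
      linarith
    have hG : 0 ≤ 8 / T ^ 2 * GG s p v (SA v T) x ^ 2 := by positivity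
    by_cases hN : ((SB v T).filter (fun i => x i = s i)) = ∅
    · have hN0 : NN s (SB v T) x = 0 := by rw [NN_card, hN]; simp
      by_cases hg : |GG s p v (SA v T) x| < T / 2
      · have hval : FF s v θ x = -sg t := by
          rw [FF_eq, sum_split v T, sum_yy s (SB v T), hN, Finset.sum_empty, add_zero]
          have : ∑ i ∈ SA v T, v i * yy s i x - θ = GG s p v (SA v T) x - t := by
            unfold GG
            rw [htdef]
            simp only [mul_sub, Finset.sum_sub_distrib]
            ring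
          rw [this]
          have hg' := abs_lt.mp hg
          unfold sg
          rcases lt_or_ge t 0 with h | h
          · rw [if_neg (not_le.mpr h), if_pos]
            · ring
            · rw [abs_of_neg h] at ht
              linarith [hg'.1]
          · rw [if_pos h, if_neg]
            rw [abs_of_nonneg h] at ht
            have := hg'.2
            intro hcon
            linarith
        rw [hval]
        have : -sg t * -sg t = 1 := by
          have := sg_sq t
          linarith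
        rw [this, hN0]
        linarith
      · push Not at hg
        have hsq : (T / 2) ^ 2 ≤ GG s p v (SA v T) x ^ 2 := by
          rw [← sq_abs (GG s p v (SA v T) x)]
          exact pow_le_pow_left₀ (by positivity) hg 2
        have h8 : 2 ≤ 8 / T ^ 2 * GG s p v (SA v T) x ^ 2 := by
          have : 8 / T ^ 2 * (T / 2) ^ 2 = 2 := by field_simp; ring
          rw [← this]
          exact mul_le_mul_of_nonneg_left hsq (by positivity)
        rw [hN0]
        linarith
    · have hN1 : 1 ≤ NN s (SB v T) x := by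
        rw [NN_card]
        have : 0 < ((SB v T).filter (fun i => x i = s i)).card :=
          Finset.card_pos.mpr (Finset.nonempty_iff_ne_empty.mpr hN)
        exact_mod_cast this
      linarith
  have h2 := expect_mono hD pt
  rw [expect_sub, expect_sub, expect_mul_left, expect_mul_left, expect_mul_left,
    expect_const hD, GG_two s p v h0 h1] at h2
  have hNm : expect (prodW (wt s p)) (fun x => NN s (SB v T) x) = ∑ i ∈ SB v T, p i :=
    NN_mean s p h0 h1 _
  rw [hNm] at h2
  have h3 : 8 / T ^ 2 * VV p v (SA v T) ≤ 1 / 3 := by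
    calc 8 / T ^ 2 * VV p v (SA v T) ≤ 8 / T ^ 2 * (T ^ 2 / 24) :=
          mul_le_mul_of_nonneg_left hV (by positivity)
      _ = 1 / 3 := by field_simp; norm_num
  have h4 : 1 / 2 ≤ -sg t * expect (prodW (wt s p)) (fun x => FF s v θ x) := by linarith
  have h5 : |-sg t * expect (prodW (wt s p)) (fun x => FF s v θ x)|
      = |expect (prodW (wt s p)) (FF s v θ)| := by
    rw [abs_mul, abs_neg, sg_abs, one_mul]
  rw [← h5]
  exact h4.trans (le_abs_self _)

/-- Case of a near threshold. -/
lemma near_case (h0 : ∀ i, 0 ≤ p i) (h1 : ∀ i, p i ≤ 1) (T : ℝ) (hT : 0 < T)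
    (hP : ∑ i ∈ SB v T, p i ≤ 1 / 12) (hV : VV p v (SA v T) ≤ T ^ 2 / 24)
    (ht : |θ - ∑ i ∈ SA v T, v i * p i| ≤ T / 2) :
    5 / 24 * VV p v (SA v T) / T + T * (∑ i ∈ SB v T, p i) / 4
      ≤ expect (prodW (wt s p)) (fun x => FF s v θ x *
        (GG s p v (SA v T) x - (θ - ∑ i ∈ SA v T, v i * p i)
          + T * ∑ i ∈ SB v T, sg (v i) * yy s i x)) := by
  set t := θ - ∑ i ∈ SA v T, v i * p i with htdef
  set P := ∑ i ∈ SB v T, p i with hPdef
  set V := VV p v (SA v T) with hVdef
  have hD := wt_isDist s p h0 h1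
  have hP0 : 0 ≤ P := Finset.sum_nonneg fun i _ => h0 i
  have hV0 : 0 ≤ V := VV_nonneg p v h0 h1 _
  set G := GG s p v (SA v T) with hGdef
  set N := NN s (SB v T) with hNdef
  have pt : ∀ x, |G x - t| - 2 * (|G x - t| * N x) + T * N x - 2 / T * ((G x - t) ^ 2 * N x)
        - 2 * T * ((N x) ^ 2 - N x)
      ≤ FF s v θ x * (G x - t + T * ∑ i ∈ SB v T, sg (v i) * yy s i x) := by
    intro x
    have h := pointwise T hT v ((SB v T).filter (fun i => x i = s i)) (by
      intro i hi
      simp only [SB, Finset.mem_filter, Finset.mem_univ, true_and] at hi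
      exact hi.1) (G x - t)
    have hNx : N x = (((SB v T).filter (fun i => x i = s i)).card : ℝ) := NN_card s _ x
    rw [← hNx] at h
    have hF : FF s v θ x = sg (G x - t + ∑ i ∈ (SB v T).filter (fun i => x i = s i), v i) := by
      rw [FF_eq, sum_split v T, sum_yy s (SB v T)]
      congr 1
      have : G x - t = ∑ i ∈ SA v T, v i * yy s i x - θ := by
        rw [hGdef]
        unfold GG
        rw [htdef]
        simp only [mul_sub, Finset.sum_sub_distrib]
        ring
      rw [this]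
      ring
    rw [hF, sum_yy s (SB v T) (fun i => sg (v i)) x]
    refine le_trans (le_of_eq ?_) h
    ring
  have h2 := expect_mono hD pt
  rw [expect_sub, expect_sub, expect_add, expect_sub, expect_mul_left, expect_mul_left,
    expect_mul_left, expect_mul_left, expect_sub] at h2
  have i1 : expect (prodW (wt s p)) (fun x => |G x - t| * N x)
      = expect (prodW (wt s p)) (fun x => |G x - t|) * P :=
    indepAB s p v h0 h1 T (fun z => |z - t|)
  have i2 : expect (prodW (wt s p)) (fun x => (G x - t) ^ 2 * N x)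
      = expect (prodW (wt s p)) (fun x => (G x - t) ^ 2) * P :=
    indepAB s p v h0 h1 T (fun z => (z - t) ^ 2)
  have i3 : expect (prodW (wt s p)) (fun x => N x) = P := NN_mean s p h0 h1 _
  have i4 : expect (prodW (wt s p)) (fun x => N x ^ 2) ≤ P + P ^ 2 := NN_two s p h0 h1 _
  have i5 : expect (prodW (wt s p)) (fun x => (G x - t) ^ 2) = V + t ^ 2 := by
    have e : (fun x => (G x - t) ^ 2) = fun x => G x ^ 2 + ((-2 * t) * G x + t ^ 2) := by
      funext x; ring
    rw [e, expect_add, expect_add, expect_mul_left, expect_const hD]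
    have g1 : expect (prodW (wt s p)) (fun x => G x) = 0 := GG_mean s p v _
    have g2 : expect (prodW (wt s p)) (fun x => G x ^ 2) = V := GG_two s p v h0 h1 _
    rw [g1, g2]; ring
  have i6 : expect (prodW (wt s p)) (fun x => (G x - t) ^ 4) ≤ 8 * (3 * V ^ 2 + T ^ 2 * V + t ^ 4) := by
    have hle : ∀ x, (G x - t) ^ 4 ≤ 8 * G x ^ 4 + 8 * t ^ 4 := by
      intro x
      have h3 : (G x - t) ^ 2 ≤ 2 * (G x ^ 2 + t ^ 2) := by nlinarith [sq_nonneg (G x + t)]
      have h4 : ((G x - t) ^ 2) ^ 2 ≤ (2 * (G x ^ 2 + t ^ 2)) ^ 2 :=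
        pow_le_pow_left₀ (sq_nonneg _) h3 2
      nlinarith [sq_nonneg (G x ^ 2 - t ^ 2)]
    refine (expect_mono hD hle).trans ?_
    rw [expect_add, expect_mul_left, expect_const hD]
    have g4 : expect (prodW (wt s p)) (fun x => G x ^ 4) ≤ 3 * V ^ 2 + T ^ 2 * V := by
      apply GG_four s p v h0 h1 T
      intro i hi
      simp only [SA, Finset.mem_filter, Finset.mem_univ, true_and] at hi
      exact hi
    linarith
  have i7 : (V + t ^ 2) / (3 * T) - 8 * (3 * V ^ 2 + T ^ 2 * V + t ^ 4) / (108 * T ^ 3)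
      ≤ expect (prodW (wt s p)) (fun x => |G x - t|) := by
    have hle : ∀ x, 1 / (3 * T) * (G x - t) ^ 2 - 1 / (108 * T ^ 3) * (G x - t) ^ 4 ≤ |G x - t| := by
      intro x
      have := abs_ge (G x - t) T hT
      refine le_trans (le_of_eq ?_) this
      ring
    have h5 := expect_mono hD hle
    rw [expect_sub, expect_mul_left, expect_mul_left, i5] at h5
    refine le_trans ?_ h5
    have : 1 / (108 * T ^ 3) * expect (prodW (wt s p)) (fun x => (G x - t) ^ 4)
        ≤ 1 / (108 * T ^ 3) * (8 * (3 * V ^ 2 + T ^ 2 * V + t ^ 4)) :=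
      mul_le_mul_of_nonneg_left i6 (by positivity)
    have e1 : (V + t ^ 2) / (3 * T) = 1 / (3 * T) * (V + t ^ 2) := by ring
    have e2 : 8 * (3 * V ^ 2 + T ^ 2 * V + t ^ 4) / (108 * T ^ 3)
      = 1 / (108 * T ^ 3) * (8 * (3 * V ^ 2 + T ^ 2 * V + t ^ 4)) := by ring
    rw [e1, e2]
    linarith
  have ht2 : t ^ 2 ≤ T ^ 2 / 4 := by
    have h6 : |t| ^ 2 ≤ (T / 2) ^ 2 := pow_le_pow_left₀ (abs_nonneg _) ht 2
    rw [sq_abs] at h6
    linarith [h6, show (T / 2) ^ 2 = T ^ 2 / 4 by ring]
  have i8 : V / (4 * T) ≤ expect (prodW (wt s p)) (fun x => |G x - t|) := by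
    refine le_trans ?_ i7
    have hT3 : 0 < 108 * T ^ 3 := by positivity
    have e : (V + t ^ 2) / (3 * T) - 8 * (3 * V ^ 2 + T ^ 2 * V + t ^ 4) / (108 * T ^ 3) - V / (4 * T)
        = (9 * T ^ 2 * V + 36 * T ^ 2 * t ^ 2 - 8 * (3 * V ^ 2 + T ^ 2 * V + t ^ 4)) / (108 * T ^ 3) := by
      field_simp
      ring
    have hnum : 0 ≤ 9 * T ^ 2 * V + 36 * T ^ 2 * t ^ 2 - 8 * (3 * V ^ 2 + T ^ 2 * V + t ^ 4) := by
      have a1 : V * V ≤ V * (T ^ 2 / 24) := mul_le_mul_of_nonneg_left hV hV0
      have a2 : t ^ 2 * t ^ 2 ≤ t ^ 2 * (T ^ 2 / 4) := mul_le_mul_of_nonneg_left ht2 (sq_nonneg _)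
      have a3 : 0 ≤ T ^ 2 * t ^ 2 := by positivity
      nlinarith
    have := div_nonneg hnum hT3.le
    rw [← e] at this
    linarith
  rw [i1, i2, i5, i3] at h2
  have hE0 : 0 ≤ expect (prodW (wt s p)) (fun x => |G x - t|) :=
    le_trans (by positivity) i8
  refine le_trans ?_ h2
  have b1 : expect (prodW (wt s p)) (fun x => |G x - t|) * P
      ≤ expect (prodW (wt s p)) (fun x => |G x - t|) * (1 / 12) :=
    mul_le_mul_of_nonneg_left hP hE0
  have b2 : 2 / T * ((V + t ^ 2) * P) ≤ T * P * (7 / 12) := by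
    have : V + t ^ 2 ≤ T ^ 2 * (7 / 24) := by linarith
    calc 2 / T * ((V + t ^ 2) * P) ≤ 2 / T * ((T ^ 2 * (7 / 24)) * P) := by
          apply mul_le_mul_of_nonneg_left _ (by positivity)
          exact mul_le_mul_of_nonneg_right this hP0
      _ = T * P * (7 / 12) := by field_simp; ring
  have b3 : 2 * T * (expect (prodW (wt s p)) (fun x => N x ^ 2) - P) ≤ T * P * (1 / 6) := by
    have c1 : expect (prodW (wt s p)) (fun x => N x ^ 2) - P ≤ P * (1 / 12) := by
      have : P ^ 2 ≤ P * (1 / 12) := by rw [sq]; exact mul_le_mul_of_nonneg_left hP hP0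
      linarith
    calc 2 * T * (expect (prodW (wt s p)) (fun x => N x ^ 2) - P) ≤ 2 * T * (P * (1 / 12)) :=
          mul_le_mul_of_nonneg_left c1 (by positivity)
      _ = T * P * (1 / 6) := by ring
  have b4 : 5 / 24 * V / T = 5 / 6 * (V / (4 * T)) := by field_simp; ring
  rw [b4]
  linarith

end

end Pool.Agent.H74.SQ
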