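import Pool.Agent.H74.SQ.LTF2

set_option autoImplicit false

namespace Pool.Agent.H74.SQ

open Finset

section
variable {n : ℕ} (s : Fin n → Bool) (p v : Fin n → ℝ) (θ : ℝ)

/-- Case where few relevant bits fire. -/
lemma few_case (h0 : ∀ i, 0 ≤ p i) (h1 : ∀ i, p i ≤ 1) (R : Finset (Fin n))
    (hR : ∀ i, i ∉ R → v i = 0) (hP : ∑ i ∈ R, p i ≤ 1 / 12) :
    1 / 2 ≤ |expect (prodW (wt s p)) (FF s v θ)| := by
  have hD := wt_isDist s p h0 h1
  have pt : ∀ x, 1 - 2 * NN s R x ≤ sg (-θ) * FF s v θ x := by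
    intro x
    have hfs : |sg (-θ) * FF s v θ x| = 1 := by
      rw [abs_mul, sg_abs, FF_eq, sg_abs, one_mul]
    have hlow : -1 ≤ sg (-θ) * FF s v θ x := by
      have := (abs_le.mp hfs.le).1
      linarith
    by_cases hN : (R.filter (fun i => x i = s i)) = ∅
    · have hN0 : NN s R x = 0 := by rw [NN_card, hN]; simp
      have hz : ∑ i, v i * yy s i x = 0 := by
        apply Finset.sum_eq_zero
        intro i _
        by_cases hi : i ∈ R
        · have : x i ≠ s i := by
            intro hx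
            have : i ∈ R.filter (fun i => x i = s i) := Finset.mem_filter.mpr ⟨hi, hx⟩
            rw [hN] at this
            exact absurd this (Finset.notMem_empty i)
          simp [yy, this]
        · rw [hR i hi, zero_mul]
      have hval : FF s v θ x = sg (-θ) := by
        rw [FF_eq, hz, zero_sub]
      rw [hval, sg_sq, hN0]
      linarith
    · have hN1 : 1 ≤ NN s R x := by
        rw [NN_card]
        have : 0 < (R.filter (fun i => x i = s i)).card :=
          Finset.card_pos.mpr (Finset.nonempty_iff_ne_empty.mpr hN)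
        exact_mod_cast this
      linarith
  have h2 := expect_mono hD pt
  rw [expect_sub, expect_mul_left, expect_mul_left, expect_const hD] at h2
  have hNm : expect (prodW (wt s p)) (fun x => NN s R x) = ∑ i ∈ R, p i :=
    NN_mean s p h0 h1 _
  rw [hNm] at h2
  have h4 : 1 / 2 ≤ sg (-θ) * expect (prodW (wt s p)) (fun x => FF s v θ x) := by linarith
  have h5 : |sg (-θ) * expect (prodW (wt s p)) (fun x => FF s v θ x)|
      = |expect (prodW (wt s p)) (FF s v θ)| := by
    rw [abs_mul, sg_abs, one_mul]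
  rw [← h5]
  exact h4.trans (le_abs_self _)

/-- the truncated variance ratio -/
noncomputable def Psi (T : ℝ) : ℝ := ∑ i, p i * (1 - p i) * min (v i ^ 2 / T ^ 2) 1

lemma Psi_eq (T : ℝ) (hT : 0 < T) :
    Psi p v T = VV p v (SA v T) / T ^ 2 + ∑ i ∈ SB v T, p i * (1 - p i) := by
  unfold Psi VV
  rw [sum_split v T, Finset.sum_div]
  congr 1
  · refine Finset.sum_congr rfl fun i hi => ?_
    simp only [SA, Finset.mem_filter, Finset.mem_univ, true_and] at hi
    have : v i ^ 2 / T ^ 2 ≤ 1 := by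
      rw [div_le_one (by positivity), ← sq_abs (v i)]
      exact pow_le_pow_left₀ (abs_nonneg _) hi 2
    rw [min_eq_left this]
    ring
  · refine Finset.sum_congr rfl fun i hi => ?_
    simp only [SB, Finset.mem_filter, Finset.mem_univ, true_and] at hi
    have : 1 ≤ v i ^ 2 / T ^ 2 := by
      rw [one_le_div (by positivity), ← sq_abs (v i)]
      exact pow_le_pow_left₀ hT.le hi.le 2
    rw [min_eq_right this, mul_one]

lemma exists_T (h0 : ∀ i, 0 ≤ p i) (h1 : ∀ i, p i ≤ 1) (K : ℝ) (hK : 0 < K)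
    (hbig : K < ∑ i ∈ Finset.univ.filter (fun i => v i ≠ 0), p i * (1 - p i)) :
    ∃ T : ℝ, 0 < T ∧ Psi p v T = K := by
  classical
  set R := Finset.univ.filter (fun i => v i ≠ 0) with hR
  have hu : ∀ i, 0 ≤ p i * (1 - p i) := fun i => mul_nonneg (h0 i) (by linarith [h1 i])
  have hne : R.Nonempty := by
    by_contra h
    rw [Finset.not_nonempty_iff_eq_empty] at h
    rw [h] at hbig
    simp at hbig
    linarith
  obtain ⟨i₀, hi₀, hmin⟩ := Finset.exists_min_image R (fun i => |v i|) hne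
  set T₁ := |v i₀| with hT₁
  have hT₁0 : 0 < T₁ := by
    have : v i₀ ≠ 0 := by simpa [hR] using hi₀
    exact abs_pos.mpr this
  have hΨ1 : K < Psi p v T₁ := by
    refine hbig.trans_le ?_
    unfold Psi
    have : ∑ i ∈ R, p i * (1 - p i) = ∑ i ∈ R, p i * (1 - p i) * min (v i ^ 2 / T₁ ^ 2) 1 := by
      refine Finset.sum_congr rfl fun i hi => ?_
      have : 1 ≤ v i ^ 2 / T₁ ^ 2 := by
        rw [one_le_div (by positivity), ← sq_abs (v i)]
        exact pow_le_pow_left₀ hT₁0.le (hmin i hi) 2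
      rw [min_eq_right this, mul_one]
    rw [this]
    apply Finset.sum_le_sum_of_subset_of_nonneg (Finset.subset_univ _)
    intro i _ _
    apply mul_nonneg (hu i)
    exact le_min (by positivity) zero_le_one
  set S := ∑ i, v i ^ 2 * (p i * (1 - p i)) with hS
  have hS0 : 0 ≤ S := Finset.sum_nonneg fun i _ => mul_nonneg (sq_nonneg _) (hu i)
  set T₂ := T₁ + Real.sqrt (S / K) with hT₂
  have hsq0 : 0 ≤ Real.sqrt (S / K) := Real.sqrt_nonneg _
  have hT₂0 : 0 < T₂ := by linarith
  have hΨ2 : Psi p v T₂ ≤ K := by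
    unfold Psi
    have h3 : ∑ i, p i * (1 - p i) * min (v i ^ 2 / T₂ ^ 2) 1 ≤ S / T₂ ^ 2 := by
      rw [hS, Finset.sum_div]
      apply Finset.sum_le_sum
      intro i _
      calc p i * (1 - p i) * min (v i ^ 2 / T₂ ^ 2) 1 ≤ p i * (1 - p i) * (v i ^ 2 / T₂ ^ 2) :=
            mul_le_mul_of_nonneg_left (min_le_left _ _) (hu i)
        _ = v i ^ 2 * (p i * (1 - p i)) / T₂ ^ 2 := by ring
    refine h3.trans ?_
    rw [div_le_iff₀ (by positivity)]
    have h4 : S / K ≤ T₂ ^ 2 := by
      have : Real.sqrt (S / K) ^ 2 = S / K := Real.sq_sqrt (div_nonneg hS0 hK.le)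
      rw [← this]
      exact pow_le_pow_left₀ hsq0 (by linarith) 2
    rw [div_le_iff₀ hK] at h4
    linarith
  have hcont : ContinuousOn (Psi p v) (Set.Icc T₁ T₂) := by
    unfold Psi
    apply continuousOn_finsetSum
    intro i _
    apply ContinuousOn.mul continuousOn_const
    refine ContinuousOn.inf ?_ continuousOn_const
    apply ContinuousOn.div continuousOn_const (by fun_prop)
    intro T hT
    have : 0 < T := lt_of_lt_of_le hT₁0 hT.1
    positivity
  have := intermediate_value_Icc' (by linarith : T₁ ≤ T₂) hcont ⟨hΨ2, hΨ1.le⟩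
  obtain ⟨T, hT, hTK⟩ := this
  exact ⟨T, lt_of_lt_of_le hT₁0 hT.1, hTK⟩

/-- Every `r`-sparse threshold function is noticeably correlated with a constant or a coordinate. -/
theorem ltf_corr (h0 : ∀ i, 0 ≤ p i) (h2 : ∀ i, p i ≤ 1 / 2) (r : ℕ) (hr : 1 ≤ r)
    (hcard : (Finset.univ.filter (fun i => v i ≠ 0)).card ≤ r) :
    1 / (57600 : ℝ) ≤ expect (prodW (wt s p)) (FF s v θ) ^ 2 ∨
    ∃ i, 0 < p i * (1 - p i) ∧ p i * (1 - p i) / (2500 * r) ≤
      expect (prodW (wt s p)) (fun x => FF s v θ x * (yy s i x - p i)) ^ 2 := by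
  classical
  have h1 : ∀ i, p i ≤ 1 := fun i => (h2 i).trans (by norm_num)
  have hD := wt_isDist s p h0 h1
  have hu : ∀ i, 0 ≤ p i * (1 - p i) := fun i => mul_nonneg (h0 i) (by linarith [h1 i])
  have hpu : ∀ i, p i ≤ 2 * (p i * (1 - p i)) := by
    intro i
    nlinarith [h0 i, h2 i]
  set E := expect (prodW (wt s p)) (FF s v θ) with hE
  by_cases hEbig : 1 / 2 ≤ |E|
  · left
    have : (1 / 2 : ℝ) ^ 2 ≤ |E| ^ 2 := pow_le_pow_left₀ (by norm_num) hEbig 2
    rw [sq_abs] at this
    linarith [show (1 / 2 : ℝ) ^ 2 = 1 / 4 by norm_num]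
  by_cases hsmall : ∑ i ∈ Finset.univ.filter (fun i => v i ≠ 0), p i * (1 - p i) ≤ 1 / 24
  · exfalso
    apply hEbig
    apply few_case s p v θ h0 h1 (Finset.univ.filter (fun i => v i ≠ 0))
    · intro i hi
      simpa using hi
    · calc ∑ i ∈ Finset.univ.filter (fun i => v i ≠ 0), p i
          ≤ ∑ i ∈ Finset.univ.filter (fun i => v i ≠ 0), 2 * (p i * (1 - p i)) :=
            Finset.sum_le_sum fun i _ => hpu i
        _ = 2 * ∑ i ∈ Finset.univ.filter (fun i => v i ≠ 0), p i * (1 - p i) := by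
            rw [Finset.mul_sum]
        _ ≤ 1 / 12 := by linarith
  push Not at hsmall
  obtain ⟨T, hT, hΨ⟩ := exists_T p v h0 h1 (1 / 24) (by norm_num) hsmall
  rw [Psi_eq p v T hT] at hΨ
  set V := VV p v (SA v T) with hV
  set P := ∑ i ∈ SB v T, p i with hP
  set U := ∑ i ∈ SB v T, p i * (1 - p i) with hU
  have hV0 : 0 ≤ V := VV_nonneg p v h0 h1 _
  have hU0 : 0 ≤ U := Finset.sum_nonneg fun i _ => hu i
  have hP0 : 0 ≤ P := Finset.sum_nonneg fun i _ => h0 i
  have hUP : U ≤ P := by
    apply Finset.sum_le_sum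
    intro i _
    nlinarith [h0 i, h1 i]
  have hPU : P ≤ 2 * U := by
    rw [hU, Finset.mul_sum]
    exact Finset.sum_le_sum fun i _ => hpu i
  have hVT : 0 ≤ V / T ^ 2 := by positivity
  have hP12 : P ≤ 1 / 12 := by linarith
  have hV24 : V ≤ T ^ 2 / 24 := by
    have h3 : V / T ^ 2 ≤ 1 / 24 := by linarith
    rw [div_le_iff₀ (by positivity)] at h3
    linarith
  by_cases ht : T / 2 < |θ - ∑ i ∈ SA v T, v i * p i|
  · exact absurd (far_case s p v θ h0 h1 T hT hP12 hV24 ht) hEbig
  push Not at ht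
  have hnear := near_case s p v θ h0 h1 T hT hP12 hV24 ht
  set t := θ - ∑ i ∈ SA v T, v i * p i with htdef
  rw [← hV, ← hP] at hnear
  -- lower bound (5/24) * (1/24) * T
  have hlow : T / 120 ≤ 5 / 24 * V / T + T * P / 4 := by
    have e1 : 5 / 24 * V / T = T * (5 / 24 * (V / T ^ 2)) := by field_simp
    rw [e1]
    have : 1 / 120 ≤ 5 / 24 * (V / T ^ 2) + P / 4 := by linarith
    calc T / 120 = T * (1 / 120) := by ring
      _ ≤ T * (5 / 24 * (V / T ^ 2) + P / 4) := mul_le_mul_of_nonneg_left this hT.le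
      _ = _ := by ring
  -- rewrite the test function through clipped weights
  set cl : Fin n → ℝ := fun i => if |v i| ≤ T then v i else T * sg (v i) with hcl
  set c₀ : ℝ := T * ∑ i ∈ SB v T, sg (v i) * p i - t with hc₀
  have hclA : ∀ i ∈ SA v T, cl i = v i := by
    intro i hi
    simp only [SA, Finset.mem_filter, Finset.mem_univ, true_and] at hi
    simp [hcl, hi]
  have hclB : ∀ i ∈ SB v T, cl i = T * sg (v i) := by
    intro i hi
    simp only [SB, Finset.mem_filter, Finset.mem_univ, true_and] at hi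
    simp [hcl, not_le.mpr hi]
  have htest : ∀ x, GG s p v (SA v T) x - t + T * ∑ i ∈ SB v T, sg (v i) * yy s i x
      = c₀ + ∑ i, cl i * (yy s i x - p i) := by
    intro x
    rw [sum_split v T, hc₀]
    have e1 : ∑ i ∈ SA v T, cl i * (yy s i x - p i) = GG s p v (SA v T) x := by
      unfold GG
      exact Finset.sum_congr rfl fun i hi => by rw [hclA i hi]
    have e2 : ∑ i ∈ SB v T, cl i * (yy s i x - p i)
        = T * ∑ i ∈ SB v T, sg (v i) * yy s i x - T * ∑ i ∈ SB v T, sg (v i) * p i := by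
      rw [Finset.mul_sum, Finset.mul_sum, ← Finset.sum_sub_distrib]
      exact Finset.sum_congr rfl fun i hi => by rw [hclB i hi]; ring
    rw [e1, e2]
    ring
  set e : Fin n → ℝ := fun i =>
    expect (prodW (wt s p)) (fun x => FF s v θ x * (yy s i x - p i)) with he
  have hEtest : expect (prodW (wt s p)) (fun x => FF s v θ x *
        (GG s p v (SA v T) x - t + T * ∑ i ∈ SB v T, sg (v i) * yy s i x))
      = c₀ * E + ∑ i, cl i * e i := by
    have e1 : (fun x => FF s v θ x *
        (GG s p v (SA v T) x - t + T * ∑ i ∈ SB v T, sg (v i) * yy s i x))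
        = fun x => c₀ * FF s v θ x + ∑ i, cl i * (FF s v θ x * (yy s i x - p i)) := by
      funext x
      rw [htest x, mul_add, Finset.mul_sum]
      congr 1
      · ring
      · exact Finset.sum_congr rfl fun i _ => by ring
    rw [e1, expect_add, expect_mul_left, expect_sum]
    congr 1
    refine Finset.sum_congr rfl fun i _ => ?_
    rw [expect_mul_left]
  rw [hEtest] at hnear
  have hc₀T : |c₀| ≤ T := by
    have h3 : |T * ∑ i ∈ SB v T, sg (v i) * p i| ≤ T * P := by
      rw [abs_mul, abs_of_pos hT]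
      apply mul_le_mul_of_nonneg_left _ hT.le
      refine (Finset.abs_sum_le_sum_abs _ _).trans ?_
      apply Finset.sum_le_sum
      intro i _
      rw [abs_mul, sg_abs, one_mul, abs_of_nonneg (h0 i)]
    have h4 := abs_sub (T * ∑ i ∈ SB v T, sg (v i) * p i) t
    rw [← hc₀] at h4
    nlinarith
  by_cases hE240 : 1 / 240 ≤ |E|
  · left
    have : (1 / 240 : ℝ) ^ 2 ≤ |E| ^ 2 := pow_le_pow_left₀ (by norm_num) hE240 2
    rw [sq_abs] at this
    linarith [show (1 / 240 : ℝ) ^ 2 = 1 / 57600 by norm_num]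
  push Not at hE240
  right
  by_contra hcon
  push Not at hcon
  have hrpos : (0 : ℝ) < r := by exact_mod_cast hr
  have he_le : ∀ i, e i ^ 2 ≤ p i * (1 - p i) / (2500 * r) := by
    intro i
    rcases (hu i).lt_or_eq with h | h
    · exact (hcon i h).le
    · -- variance zero
      have hz : p i = 0 := by
        have := hpu i
        rw [← h] at this
        linarith [h0 i]
      have hle : |e i| ≤ 0 := by
        rw [he]
        refine (abs_expect_le hD).trans ?_
        have : (fun x => |FF s v θ x * (yy s i x - p i)|) = fun x => yy s i x := by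
          funext x
          rw [abs_mul, FF_eq, sg_abs, one_mul, hz, sub_zero]
          unfold yy
          split_ifs <;> simp
        rw [this, expect_wt s p i (fun z => z), hz]
        simp
      have : e i = 0 := abs_eq_zero.mp (le_antisymm hle (abs_nonneg _))
      rw [this, ← h]
      simp
  have hsum_low : T / 240 ≤ ∑ i, cl i * e i := by
    have h3 : c₀ * E ≤ T * (1 / 240) := by
      calc c₀ * E ≤ |c₀ * E| := le_abs_self _
        _ = |c₀| * |E| := abs_mul _ _
        _ ≤ T * (1 / 240) := mul_le_mul hc₀T hE240.le (abs_nonneg _) hT.le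
    linarith
  have hR : ∑ i, cl i * e i = ∑ i ∈ Finset.univ.filter (fun i => v i ≠ 0), cl i * e i := by
    rw [Finset.sum_filter]
    refine Finset.sum_congr rfl fun i _ => ?_
    split_ifs with h
    · rfl
    · push Not at h
      have : cl i = 0 := by
        simp [hcl, h, hT.le]
      rw [this, zero_mul]
  have hCS : (∑ i, cl i * e i) ^ 2 ≤ r * ∑ i, cl i ^ 2 * e i ^ 2 := by
    rw [hR]
    refine (sq_sum_le_card_mul_sum_sq).trans ?_
    have h5 : ∑ i ∈ Finset.univ.filter (fun i => v i ≠ 0), (cl i * e i) ^ 2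
        ≤ ∑ i, cl i ^ 2 * e i ^ 2 := by
      simp only [mul_pow]
      apply Finset.sum_le_sum_of_subset_of_nonneg (Finset.subset_univ _)
      intro i _ _
      positivity
    have hc : ((Finset.univ.filter (fun i => v i ≠ 0)).card : ℝ) ≤ r := by exact_mod_cast hcard
    apply mul_le_mul hc h5 (Finset.sum_nonneg fun i _ => sq_nonneg _) hrpos.le
  have hvar : ∑ i, cl i ^ 2 * (p i * (1 - p i)) = T ^ 2 / 24 := by
    rw [sum_split v T]
    have e1 : ∑ i ∈ SA v T, cl i ^ 2 * (p i * (1 - p i)) = V := by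
      rw [hV]
      unfold VV
      exact Finset.sum_congr rfl fun i hi => by rw [hclA i hi]
    have e2 : ∑ i ∈ SB v T, cl i ^ 2 * (p i * (1 - p i)) = T ^ 2 * U := by
      rw [hU, Finset.mul_sum]
      refine Finset.sum_congr rfl fun i hi => ?_
      rw [hclB i hi]
      have := sg_sq (v i)
      linear_combination (T ^ 2 * (p i * (1 - p i))) * this
    rw [e1, e2]
    have : V = T ^ 2 * (V / T ^ 2) := by field_simp
    calc V + T ^ 2 * U = T ^ 2 * (V / T ^ 2) + T ^ 2 * U := by rw [← this]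
      _ = T ^ 2 * (V / T ^ 2 + U) := by ring
      _ = T ^ 2 / 24 := by rw [hΨ]; ring
  have hup : (r : ℝ) * ∑ i, cl i ^ 2 * e i ^ 2 ≤ T ^ 2 / 60000 := by
    have h6 : ∑ i, cl i ^ 2 * e i ^ 2 ≤ ∑ i, cl i ^ 2 * (p i * (1 - p i) / (2500 * (r : ℝ))) :=
      Finset.sum_le_sum fun i _ => mul_le_mul_of_nonneg_left (he_le i) (sq_nonneg _)
    have h7 : ∑ i, cl i ^ 2 * (p i * (1 - p i) / (2500 * (r : ℝ)))
        = (∑ i, cl i ^ 2 * (p i * (1 - p i))) / (2500 * (r : ℝ)) := by
      rw [Finset.sum_div]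
      exact Finset.sum_congr rfl fun i _ => by ring
    rw [h7, hvar] at h6
    calc (r : ℝ) * ∑ i, cl i ^ 2 * e i ^ 2 ≤ r * (T ^ 2 / 24 / (2500 * r)) :=
          mul_le_mul_of_nonneg_left h6 hrpos.le
      _ = T ^ 2 / 60000 := by field_simp; ring
  have hfin : (T / 240) ^ 2 ≤ T ^ 2 / 60000 :=
    (pow_le_pow_left₀ (by positivity) hsum_low 2).trans (hCS.trans hup)
  have hT2 : 0 < T ^ 2 := by positivity
  have : (T / 240) ^ 2 = T ^ 2 / 57600 := by ring
  rw [this] at hfin
  linarith

end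

end Pool.Agent.H74.SQ
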