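import Pool.Agent.H74.SQ.Prod

set_option autoImplicit false

namespace Pool.Agent.H74.SQ

open Finset

/-- value of the basic alternating list as a function of the tested bits -/
def lv : (r : ℕ) → (Fin r → Bool) → ℝ
  | 0, _ => 1
  | r + 1, u => if u 0 then 1 else - lv r (fun j => u j.succ)

lemma lv_hit : ∀ (r : ℕ) (u : Fin r → Bool) (k : Fin r), u k = true →
    (∀ j, j < k → u j = false) → lv r u = (-1) ^ (k : ℕ) := by
  intro r
  induction r with
  | zero => intro u k; exact k.elim0
  | succ r ih =>
    intro u k hk hj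
    by_cases h0 : k = 0
    · subst h0
      simp [lv, hk]
    · obtain ⟨k', rfl⟩ := Fin.exists_succ_eq_of_ne_zero h0
      have hu0 : u 0 = false := hj 0 (Fin.succ_pos k')
      have := ih (fun j => u j.succ) k' hk (fun j hjk => hj j.succ (Fin.succ_lt_succ_iff.mpr hjk))
      simp [lv, hu0, this, pow_succ]

lemma lv_miss : ∀ (r : ℕ) (u : Fin r → Bool), (∀ j, u j = false) → lv r u = (-1) ^ r := by
  intro r
  induction r with
  | zero => intro u _; simp [lv]
  | succ r ih =>
    intro u hj
    have hu0 : u 0 = false := hj 0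
    have := ih (fun j => u j.succ) (fun j => hj j.succ)
    simp [lv, hu0, this, pow_succ]

lemma lv_abs : ∀ (r : ℕ) (u : Fin r → Bool), |lv r u| = 1 := by
  intro r
  induction r with
  | zero => intro u; simp [lv]
  | succ r ih =>
    intro u
    by_cases h : u 0 = true
    · simp [lv, h]
    · simp [lv, h, ih]

lemma neg_one_pow_or (k : ℕ) : ((-1 : ℝ) ^ k = 1) ∨ ((-1 : ℝ) ^ k = -1) := neg_one_pow_eq_or ℝ k

lemma mem_lists {n r : ℕ} (y : Fin r → Fin n) :
    (fun x : Fin n → Bool => lv r (fun j => x (y j))) ∈ DecisionLists n r := by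
  refine ⟨fun k => (y k, true), fun k => (-1) ^ (k : ℕ), (-1) ^ r, fun k => neg_one_pow_or _,
    neg_one_pow_or _, fun x => ⟨fun k hk hj => ?_, fun h => ?_⟩⟩
  · exact lv_hit r _ k hk (fun j hjk => by simpa using hj j hjk)
  · exact lv_miss r _ (fun j => by simpa using h j)

/-- bit weights -/
def bw (p : ℝ) : Bool → ℝ := fun b => if b then p else 1 - p

lemma bw_sum (p : ℝ) : bw p true + bw p false = 1 := by simp [bw]

/-- The expectation recursion. -/
lemma expect_lv_succ (r : ℕ) (p : ℝ) :
    expect (prodW (fun _ : Fin (r + 1) => bw p)) (lv (r + 1))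
      = p - (1 - p) * expect (prodW (fun _ : Fin r => bw p)) (lv r) := by
  have h1 : ∑ x : Fin r → Bool, prodW (fun _ : Fin r => bw p) x = 1 := by
    unfold prodW
    rw [sum_prod]
    simp [bw]
  unfold expect
  rw [← (Fin.consEquiv (fun _ : Fin (r + 1) => Bool)).sum_comp]
  rw [Fintype.sum_prod_type]
  simp only [Fintype.sum_bool]
  have hA : ∀ (b : Bool) (u : Fin r → Bool),
      prodW (fun _ : Fin (r + 1) => bw p) (Fin.consEquiv (fun _ : Fin (r + 1) => Bool) (b, u))
        = bw p b * prodW (fun _ : Fin r => bw p) u := by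
    intro b u
    unfold prodW
    rw [Fin.prod_univ_succ]
    simp [Fin.consEquiv]
  simp only [hA]
  have hB : ∀ u : Fin r → Bool,
      lv (r + 1) (Fin.consEquiv (fun _ : Fin (r + 1) => Bool) (true, u)) = 1 := by
    intro u; simp [lv, Fin.consEquiv]
  have hC : ∀ u : Fin r → Bool,
      lv (r + 1) (Fin.consEquiv (fun _ : Fin (r + 1) => Bool) (false, u)) = - lv r u := by
    intro u; simp [lv, Fin.consEquiv]
  simp only [hB, hC]
  have e1 : ∑ x : Fin r → Bool, bw p true * prodW (fun _ : Fin r => bw p) x * 1 = p := by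
    simp only [mul_one]
    rw [← Finset.mul_sum, h1]
    simp [bw]
  have e2 : ∑ x : Fin r → Bool, bw p false * prodW (fun _ : Fin r => bw p) x * -lv r x
      = - ((1 - p) * ∑ x : Fin r → Bool, prodW (fun _ : Fin r => bw p) x * lv r x) := by
    rw [Finset.mul_sum, ← Finset.sum_neg_distrib]
    refine Finset.sum_congr rfl fun x _ => ?_
    simp [bw]
    ring
  rw [e1, e2]
  ring

lemma expect_lv_zero (p : ℝ) :
    expect (prodW (fun _ : Fin 0 => bw p)) (lv 0) = 1 := by
  simp [expect, prodW, lv]

lemma expect_lv_bound (p : ℝ) (h0 : 0 ≤ p) (h1 : p ≤ 1) (r : ℕ) :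
    |expect (prodW (fun _ : Fin r => bw p)) (lv r)| ≤ p + (1 - p) ^ r := by
  have key : |expect (prodW (fun _ : Fin r => bw p)) (lv r) - p / (2 - p)| ≤ (1 - p) ^ r := by
    induction r with
    | zero =>
      rw [expect_lv_zero]
      have h2 : 0 < 2 - p := by linarith
      have : p / (2 - p) ≤ 1 := by rw [div_le_one h2]; linarith
      have h3 : 0 ≤ p / (2 - p) := div_nonneg h0 h2.le
      rw [abs_of_nonneg (by linarith)]
      simp
      exact h3
    | succ r ih =>
      rw [expect_lv_succ]
      have h2 : (2 - p) ≠ 0 := by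
        have : 0 < 2 - p := by linarith
        exact this.ne'
      have : p - (1 - p) * expect (prodW (fun _ : Fin r => bw p)) (lv r) - p / (2 - p)
          = - ((1 - p) * (expect (prodW (fun _ : Fin r => bw p)) (lv r) - p / (2 - p))) := by
        field_simp
        ring
      rw [this, abs_neg, abs_mul, abs_of_nonneg (by linarith : (0 : ℝ) ≤ 1 - p), pow_succ, mul_comm]
      exact mul_le_mul_of_nonneg_right ih (by linarith)
  have h2 : 0 < 2 - p := by linarith
  have h3 : 0 ≤ p / (2 - p) := div_nonneg h0 h2.le
  have h4 : p / (2 - p) ≤ p := by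
    rw [div_le_iff₀ h2]
    nlinarith
  have := abs_sub_abs_le_abs_sub (expect (prodW (fun _ : Fin r => bw p)) (lv r)) (p / (2 - p))
  rw [abs_of_nonneg h3] at this
  linarith

/-- masked bits agree when the masked bits are zero -/
lemma lv_mask {n r : ℕ} (y : Fin r → Fin n) (J : Finset (Fin r)) (x : Fin n → Bool)
    (h : ∀ j ∈ J, x (y j) = false) :
    lv r (fun j => if j ∈ J then false else x (y j)) = lv r (fun j => x (y j)) := by
  congr 1
  funext j
  by_cases hj : j ∈ J
  · simp [hj, h j hj]
  · simp [hj]

/-- The expectation of a coordinate. -/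
lemma expect_coord {n : ℕ} (p : ℝ) (i : Fin n) :
    expect (prodW (fun _ : Fin n => bw p)) (fun x => if x i then 1 else 0) = p := by
  have h := expect_comp (n := n) (r := 1) (fun _ : Fin n => bw p) (fun _ => bw_sum p)
    (fun _ => i) (fun a b _ => Subsingleton.elim a b)
    (fun u : Fin 1 → Bool => if u 0 then 1 else 0)
  rw [h]
  unfold expect
  rw [← (Equiv.funUnique (Fin 1) Bool).symm.sum_comp]
  simp [prodW, bw]

/-- Union bound for the masked positions. -/
lemma expect_union {n r : ℕ} (p : ℝ) (h0 : 0 ≤ p) (h1 : p ≤ 1) (y : Fin r → Fin n)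
    (J : Finset (Fin r)) (F : (Fin n → Bool) → ℝ)
    (hF : ∀ x, (∀ j ∈ J, x (y j) = false) → F x = 0) (hb : ∀ x, |F x| ≤ 2) :
    |expect (prodW (fun _ : Fin n => bw p)) F| ≤ 2 * J.card * p := by
  have hD : IsDist (prodW (fun _ : Fin n => bw p)) := by
    apply prodW_isDist
    · intro i b
      cases b <;> simp [bw] <;> linarith
    · intro i; exact bw_sum p
  refine (abs_expect_le hD).trans ?_
  have : ∀ x, |F x| ≤ ∑ j ∈ J, 2 * (if x (y j) then (1 : ℝ) else 0) := by
    intro x
    by_cases hx : ∀ j ∈ J, x (y j) = false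
    · rw [hF x hx]
      simp only [abs_zero]
      apply Finset.sum_nonneg
      intro j _
      split_ifs <;> norm_num
    · push Not at hx
      obtain ⟨j, hj, hxj⟩ := hx
      have hxj' : x (y j) = true := by simpa using hxj
      have : (2 : ℝ) * (if x (y j) then (1 : ℝ) else 0) ≤ ∑ j ∈ J, 2 * (if x (y j) then (1 : ℝ) else 0) :=
        Finset.single_le_sum (f := fun j => (2 : ℝ) * (if x (y j) then (1 : ℝ) else 0))
          (fun i _ => by split_ifs <;> norm_num) hj
      rw [hxj'] at this
      simp only [if_true, mul_one] at this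
      exact (hb x).trans this
  refine (expect_mono hD this).trans ?_
  rw [expect_sum]
  simp only [expect_mul_left, expect_coord]
  rw [Finset.sum_const, nsmul_eq_mul]
  apply le_of_eq
  ring

/-- The correlation bound. -/
lemma corr_bound {n r : ℕ} (p : ℝ) (h0 : 0 ≤ p) (h1 : p ≤ 1) (y z : Fin r → Fin n)
    (hy : Function.Injective y) (hz : Function.Injective z)
    (hyz : ∀ i j, i ≠ j → y i ≠ z j) (k : ℕ)
    (hk : (Finset.univ.filter (fun j => y j = z j)).card ≤ k) :
    |expect (prodW (fun _ : Fin n => bw p))
      (fun x => lv r (fun j => x (y j)) * lv r (fun j => x (z j)))|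
      ≤ 2 * k * p + (p + (1 - p) ^ r + 2 * k * p) ^ 2 := by
  classical
  set J : Finset (Fin r) := Finset.univ.filter (fun j => y j = z j) with hJ
  have hD : IsDist (prodW (fun _ : Fin n => bw p)) := by
    apply prodW_isDist
    · intro i b
      cases b <;> simp [bw] <;> linarith
    · intro i; exact bw_sum p
  set D := prodW (fun _ : Fin n => bw p) with hDdef
  set Fy : (Fin n → Bool) → ℝ := fun x => lv r (fun j => if j ∈ J then false else x (y j)) with hFy
  set Fz : (Fin n → Bool) → ℝ := fun x => lv r (fun j => if j ∈ J then false else x (z j)) with hFz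
  have hkp : (2 : ℝ) * J.card * p ≤ 2 * k * p := by
    have : (J.card : ℝ) ≤ k := by exact_mod_cast hk
    nlinarith
  have hyE : |expect D Fy| ≤ p + (1 - p) ^ r + 2 * k * p := by
    have e1 : |expect D (fun x => Fy x - lv r (fun j => x (y j)))| ≤ 2 * J.card * p := by
      apply expect_union p h0 h1 y J
      · intro x hx
        simp only [hFy]
        rw [lv_mask y J x hx, sub_self]
      · intro x
        refine (abs_sub _ _).trans ?_
        simp only [hFy]
        rw [lv_abs, lv_abs]; norm_num
    have e2 : |expect D (fun x => lv r (fun j => x (y j)))| ≤ p + (1 - p) ^ r := by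
      rw [hDdef, expect_comp _ (fun _ => bw_sum p) y hy (lv r)]
      exact expect_lv_bound p h0 h1 r
    rw [expect_sub] at e1
    have := abs_sub_abs_le_abs_sub (expect D Fy) (expect D (fun x => lv r (fun j => x (y j))))
    linarith
  have hzE : |expect D Fz| ≤ p + (1 - p) ^ r + 2 * k * p := by
    have e1 : |expect D (fun x => Fz x - lv r (fun j => x (z j)))| ≤ 2 * J.card * p := by
      apply expect_union p h0 h1 z J
      · intro x hx
        simp only [hFz]
        rw [lv_mask z J x hx, sub_self]
      · intro x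
        refine (abs_sub _ _).trans ?_
        simp only [hFz]
        rw [lv_abs, lv_abs]; norm_num
    have e2 : |expect D (fun x => lv r (fun j => x (z j)))| ≤ p + (1 - p) ^ r := by
      rw [hDdef, expect_comp _ (fun _ => bw_sum p) z hz (lv r)]
      exact expect_lv_bound p h0 h1 r
    rw [expect_sub] at e1
    have := abs_sub_abs_le_abs_sub (expect D Fz) (expect D (fun x => lv r (fun j => x (z j))))
    linarith
  have hprod : expect D (fun x => Fy x * Fz x) = expect D Fy * expect D Fz := by
    rw [hDdef]
    apply expect_mul_indep _ {i | ∃ j, j ∉ J ∧ y j = i} {i | ∃ j, j ∉ J ∧ z j = i}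
    · rw [Set.disjoint_left]
      rintro i ⟨j, hj, rfl⟩ ⟨j', hj', he⟩
      by_cases hjj : j = j'
      · subst hjj
        exact hj (by simp [hJ, he])
      · exact hyz j j' hjj he.symm
    · intro x x' hxx
      simp only [hFy]
      congr 1
      funext j
      by_cases hj : j ∈ J
      · simp [hj]
      · simp only [hj, if_false]
        exact hxx _ ⟨j, hj, rfl⟩
    · intro x x' hxx
      simp only [hFz]
      congr 1
      funext j
      by_cases hj : j ∈ J
      · simp [hj]
      · simp only [hj, if_false]
        exact hxx _ ⟨j, hj, rfl⟩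
    · exact hD.2
  have hdiff : |expect D (fun x => lv r (fun j => x (y j)) * lv r (fun j => x (z j))
      - Fy x * Fz x)| ≤ 2 * J.card * p := by
    apply expect_union p h0 h1 y J
    · intro x hx
      simp only [hFy, hFz]
      have hx' : ∀ j ∈ J, x (z j) = false := by
        intro j hj
        have : y j = z j := by simpa [hJ] using hj
        rw [← this]; exact hx j hj
      rw [lv_mask y J x hx, lv_mask z J x hx', sub_self]
    · intro x
      refine (abs_sub _ _).trans ?_
      simp only [hFy, hFz, abs_mul]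
      rw [lv_abs, lv_abs, lv_abs, lv_abs]; norm_num
  rw [expect_sub, hprod] at hdiff
  have h3 : |expect D Fy * expect D Fz| ≤ (p + (1 - p) ^ r + 2 * k * p) ^ 2 := by
    rw [abs_mul, sq]
    exact mul_le_mul hyE hzE (abs_nonneg _) (le_trans (abs_nonneg _) hyE)
  have := abs_sub_abs_le_abs_sub
    (expect D (fun x => lv r (fun j => x (y j)) * lv r (fun j => x (z j))))
    (expect D Fy * expect D Fz)
  linarith

end Pool.Agent.H74.SQ
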