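import Pool.Agent.H74.SQ.Family
import Pool.Agent.H74.SQ.Halfspace

set_option autoImplicit false

namespace Pool.Agent.H74.SQ

open Finset Filter

lemma sqDim_mono_gamma {n : ℕ} (C : Set ((Fin n → Bool) → ℝ)) {γ γ' : ℝ} (h : γ ≤ γ') :
    sqDim C γ ≤ sqDim C γ' := by
  apply sSup_le_sSup
  rintro d ⟨k, D, hd, hD, f, hf, hc⟩
  exact ⟨k, D, hd, hD, f, hf, fun i j hij => (hc i j hij).trans h⟩

/-- The prime. -/
lemma exists_prime' (n r : ℕ) (hr : 1 ≤ r) (hn : 2 * r ^ 2 ≤ n) (h4 : 4 ≤ n) :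
    ∃ q : ℕ, q.Prime ∧ r ≤ q ∧ r * q ≤ n ∧ n ≤ q ^ 4 := by
  have hN : r ≤ n / (2 * r) := by
    rw [Nat.le_div_iff_mul_le (by omega)]
    nlinarith
  obtain ⟨q, hq, h1, h2⟩ := Nat.exists_prime_lt_and_le_two_mul (n / (2 * r)) (by omega)
  refine ⟨q, hq, by omega, ?_, ?_⟩
  · have h3 : (2 * r) * (n / (2 * r)) ≤ n := Nat.mul_div_le n (2 * r)
    calc r * q ≤ r * (2 * (n / (2 * r))) := Nat.mul_le_mul_left r h2
      _ = (2 * r) * (n / (2 * r)) := by ring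
      _ ≤ n := h3
  · have h3 : n < (2 * r) * q := by
      have := Nat.lt_mul_div_succ n (show 0 < 2 * r by omega)
      calc n < (2 * r) * (n / (2 * r) + 1) := this
        _ ≤ (2 * r) * q := Nat.mul_le_mul_left _ h1
    have h5 : n ^ 2 ≤ (2 * r) ^ 2 * q ^ 2 := by
      rw [← mul_pow]
      exact Nat.pow_le_pow_left h3.le 2
    have h6 : (2 * r) ^ 2 ≤ 2 * n := by nlinarith
    have h7 : n ^ 2 ≤ 2 * n * q ^ 2 := h5.trans (Nat.mul_le_mul_right _ h6)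
    have h8 : n ≤ 2 * q ^ 2 := by
      have hn0 : 0 < n := by omega
      nlinarith
    have h9 : n * n ≤ 4 * q ^ 4 := by
      calc n * n ≤ (2 * q ^ 2) * (2 * q ^ 2) := Nat.mul_le_mul h8 h8
        _ = 4 * q ^ 4 := by ring
    nlinarith

/-- The real-variable estimates. -/
lemma param (ε : ℝ) (hε : 0 < ε) (hε1 : ε ≤ 1 / 2) :
    ∃ r₀ : ℝ, ∀ r : ℝ, r₀ ≤ r → 2 ≤ r ∧ 8 ≤ r ^ (ε / 8) ∧ 8 * Real.log r ≤ r ^ (ε / 4) := by
  have h1 : ∀ᶠ r : ℝ in atTop, 8 ≤ r ^ (ε / 8) :=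
    (tendsto_rpow_atTop (by positivity)).eventually_ge_atTop 8
  have h2 : ∀ᶠ r : ℝ in atTop, 8 * Real.log r ≤ r ^ (ε / 4) := by
    have h := (isLittleO_log_rpow_atTop (show 0 < ε / 4 by positivity)).bound
      (show (0 : ℝ) < 1 / 8 by norm_num)
    filter_upwards [h, eventually_ge_atTop (1 : ℝ)] with r hr h1
    have hl : 0 ≤ Real.log r := Real.log_nonneg h1
    have hp : 0 ≤ r ^ (ε / 4) := Real.rpow_nonneg (by linarith) _
    rw [Real.norm_of_nonneg hl, Real.norm_of_nonneg hp] at hr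
    linarith
  have h3 : ∀ᶠ r : ℝ in atTop, 2 ≤ r := eventually_ge_atTop 2
  obtain ⟨r₀, h⟩ := eventually_atTop.mp (h3.and (h1.and h2))
  exact ⟨r₀, h⟩

lemma coreFam (ε : ℝ) (hε : 0 < ε) (hε1 : ε ≤ 1 / 2) (n r : ℕ) (h4 : 4 ≤ n) (hr2 : (2 : ℝ) ≤ r)
    (hr8 : 8 ≤ (r : ℝ) ^ (ε / 8)) (hrl : 8 * Real.log r ≤ (r : ℝ) ^ (ε / 4))
    (hlog : Real.log n ≤ (r : ℝ) ^ (ε / 2)) (hlog0 : 0 < Real.log n) (hn : 2 * r ^ 2 ≤ n) :
    ∃ (p : ℝ) (k : ℕ), 0 ≤ p ∧ p ≤ 1 ∧ HasFamily (DecisionLists n r)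
      (prodW (fun _ : Fin n => bw p)) (((r : ℝ) * Real.log n) ^ (-(1 - ε))) k ∧
      (n : ℝ) ^ ((r : ℝ) ^ (ε / 8)) ≤ k := by
  have hr1 : 1 ≤ r := by
    have : (1 : ℝ) ≤ r := by linarith
    exact_mod_cast this
  have hr0 : (0 : ℝ) < r := by linarith
  obtain ⟨q, hq, hrq, hrqn, hnq⟩ := exists_prime' n r hr1 hn h4
  set m : ℕ := ⌊(r : ℝ) ^ (ε / 4)⌋₊ with hm
  set p : ℝ := 2 * Real.log r / r with hp
  have hlr : Real.log 2 ≤ Real.log r := Real.log_le_log (by norm_num) hr2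
  have hl2 : (0.69 : ℝ) < Real.log 2 := by
    have := Real.log_two_gt_d9
    linarith
  have hp0 : 0 ≤ p := by
    apply div_nonneg _ hr0.le
    linarith
  have hE4 : 0 ≤ (r : ℝ) ^ (ε / 4) := Real.rpow_nonneg hr0.le _
  have hmle : (m : ℝ) ≤ (r : ℝ) ^ (ε / 4) := Nat.floor_le hE4
  have hsq : (r : ℝ) ^ (ε / 8) * (r : ℝ) ^ (ε / 8) = (r : ℝ) ^ (ε / 4) := by
    rw [← Real.rpow_add hr0]; congr 1; ring
  have hsq2 : (r : ℝ) ^ (ε / 4) * (r : ℝ) ^ (ε / 4) = (r : ℝ) ^ (ε / 2) := by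
    rw [← Real.rpow_add hr0]; congr 1; ring
  have hm4 : (r : ℝ) ^ (ε / 8) ≤ (m : ℝ) / 4 := by
    have : (r : ℝ) ^ (ε / 4) < m + 1 := Nat.lt_floor_add_one _
    nlinarith
  have hm1 : 1 ≤ m := by
    have : (1 : ℝ) ≤ m := by linarith
    exact_mod_cast this
  have hm1' : (((m - 1 : ℕ)) : ℝ) = (m : ℝ) - 1 := by
    rw [Nat.cast_sub hm1]; simp
  -- 8 m log r ≤ r ^ (ε/2)
  have hkey : 8 * (m : ℝ) * Real.log r ≤ (r : ℝ) ^ (ε / 2) := by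
    rw [← hsq2]
    have : (m : ℝ) * (8 * Real.log r) ≤ (r : ℝ) ^ (ε / 4) * (r : ℝ) ^ (ε / 4) :=
      mul_le_mul hmle hrl (by linarith) hE4
    linarith
  have hre : (r : ℝ) ^ (ε / 2) ≤ r := by
    calc (r : ℝ) ^ (ε / 2) ≤ (r : ℝ) ^ (1 : ℝ) :=
          Real.rpow_le_rpow_of_exponent_le (by linarith) (by linarith)
      _ = r := Real.rpow_one _
  have h2mp : 2 * (m : ℝ) * p ≤ 1 := by
    rw [hp]
    rw [show 2 * (m : ℝ) * (2 * Real.log r / r) = (4 * m * Real.log r) / r by ring]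
    rw [div_le_one hr0]
    have : 0 ≤ (m : ℝ) * Real.log r := mul_nonneg (by positivity) (by linarith)
    linarith
  have hp1 : p ≤ 1 := by
    have h1 : (1 : ℝ) ≤ m := by exact_mod_cast hm1
    have h2 : 1 * p ≤ (m : ℝ) * p := mul_le_mul_of_nonneg_right h1 hp0
    linarith
  have hpow : (1 - p) ^ r ≤ p := by
    have e1 : (1 - p) ^ r ≤ Real.exp (-p) ^ r := by
      apply pow_le_pow_left₀ (by linarith)
      have := Real.add_one_le_exp (-p)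
      linarith
    have e2 : Real.exp (-p) ^ r = Real.exp (-(2 * Real.log r)) := by
      rw [← Real.exp_nat_mul]
      congr 1
      rw [hp]
      field_simp
    have e3 : Real.exp (-(2 * Real.log r)) = ((r : ℝ) ^ 2)⁻¹ := by
      rw [Real.exp_neg]
      congr 1
      rw [show 2 * Real.log (r : ℝ) = ((2 : ℕ) : ℝ) * Real.log r by norm_num, Real.exp_nat_mul,
        Real.exp_log hr0]
    rw [e2, e3] at e1
    refine e1.trans ?_
    rw [hp, inv_eq_one_div, div_le_div_iff₀ (by positivity) hr0]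
    have hx : (1 : ℝ) ≤ 2 * Real.log r * r := by
      have h1 : (0.69 : ℝ) ≤ Real.log r := by linarith
      have h2 : (0.69 : ℝ) * 2 ≤ Real.log r * r :=
        mul_le_mul h1 hr2 (by norm_num) (by linarith)
      linarith
    have h2 : 1 * (r : ℝ) ≤ (2 * Real.log r * r) * r := mul_le_mul_of_nonneg_right hx hr0.le
    calc 1 * (r : ℝ) ≤ (2 * Real.log r * r) * r := h2
      _ = 2 * Real.log r * (r : ℝ) ^ 2 := by ring
  have hgam : 2 * ((m - 1 : ℕ) : ℝ) * p + (p + (1 - p) ^ r + 2 * ((m - 1 : ℕ) : ℝ) * p) ^ 2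
      ≤ ((r : ℝ) * Real.log n) ^ (-(1 - ε)) := by
    rw [hm1']
    have ha0 : 0 ≤ p + (1 - p) ^ r + 2 * ((m : ℝ) - 1) * p := by
      have : (1 : ℝ) ≤ m := by exact_mod_cast hm1
      have h5 : 0 ≤ (1 - p) ^ r := pow_nonneg (by linarith) _
      have h6 : 0 ≤ 2 * ((m : ℝ) - 1) * p := by
        apply mul_nonneg _ hp0
        linarith
      linarith
    have ha1 : p + (1 - p) ^ r + 2 * ((m : ℝ) - 1) * p ≤ 2 * m * p := by linarith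
    have ha2 : (p + (1 - p) ^ r + 2 * ((m : ℝ) - 1) * p) ^ 2 ≤ 2 * m * p := by
      have hle : p + (1 - p) ^ r + 2 * ((m : ℝ) - 1) * p ≤ 1 := ha1.trans h2mp
      rw [sq]
      calc (p + (1 - p) ^ r + 2 * ((m : ℝ) - 1) * p) * (p + (1 - p) ^ r + 2 * ((m : ℝ) - 1) * p)
          ≤ 1 * (2 * m * p) := mul_le_mul hle ha1 ha0 (by norm_num)
        _ = 2 * m * p := one_mul _
    have hT : 2 * ((m : ℝ) - 1) * p + (p + (1 - p) ^ r + 2 * ((m : ℝ) - 1) * p) ^ 2 ≤ 4 * m * p := by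
      linarith
    refine hT.trans ?_
    have h4mp : 4 * (m : ℝ) * p = (8 * m * Real.log r) / r := by rw [hp]; ring
    rw [h4mp]
    have hb : (8 * m * Real.log r) / r ≤ (r : ℝ) ^ (ε / 2 - 1) := by
      rw [Real.rpow_sub hr0, Real.rpow_one]
      exact div_le_div_of_nonneg_right hkey hr0.le
    refine hb.trans ?_
    have hrl0 : 0 < (r : ℝ) * Real.log n := mul_pos hr0 hlog0
    have hup : (r : ℝ) * Real.log n ≤ (r : ℝ) ^ (1 + ε / 2) := by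
      rw [Real.rpow_add hr0, Real.rpow_one]
      exact mul_le_mul_of_nonneg_left hlog hr0.le
    have h1 : ((r : ℝ) ^ (1 + ε / 2)) ^ (-(1 - ε)) ≤ ((r : ℝ) * Real.log n) ^ (-(1 - ε)) :=
      Real.rpow_le_rpow_of_nonpos hrl0 hup (by linarith)
    refine le_trans ?_ h1
    rw [← Real.rpow_mul hr0.le]
    apply Real.rpow_le_rpow_of_exponent_le (by linarith)
    nlinarith
  have hfam := family (m := m) hq hrq hrqn p hp0 hp1 _ hgam
  refine ⟨p, q ^ m, hp0, hp1, hfam, ?_⟩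
  · push_cast
    have hn1 : (1 : ℝ) ≤ n := by
      have : 1 ≤ n := by omega
      exact_mod_cast this
    have h1 : (n : ℝ) ^ ((r : ℝ) ^ (ε / 8)) ≤ (n : ℝ) ^ ((m : ℝ) / 4) :=
      Real.rpow_le_rpow_of_exponent_le hn1 hm4
    refine h1.trans ?_
    have h2 : (n : ℝ) ≤ (q : ℝ) ^ (4 : ℝ) := by
      have : (n : ℝ) ≤ (q : ℝ) ^ 4 := by exact_mod_cast hnq
      rw [show (4 : ℝ) = ((4 : ℕ) : ℝ) by norm_num, Real.rpow_natCast]
      exact this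
    have h3 : (n : ℝ) ^ ((m : ℝ) / 4) ≤ ((q : ℝ) ^ (4 : ℝ)) ^ ((m : ℝ) / 4) :=
      Real.rpow_le_rpow (by linarith) h2 (by positivity)
    refine h3.trans ?_
    rw [← Real.rpow_mul (by positivity)]
    rw [show (4 : ℝ) * ((m : ℝ) / 4) = (m : ℝ) by ring, Real.rpow_natCast]


lemma core (ε : ℝ) (hε : 0 < ε) (hε1 : ε ≤ 1 / 2) (n r : ℕ) (h4 : 4 ≤ n) (hr2 : (2 : ℝ) ≤ r)
    (hr8 : 8 ≤ (r : ℝ) ^ (ε / 8)) (hrl : 8 * Real.log r ≤ (r : ℝ) ^ (ε / 4))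
    (hlog : Real.log n ≤ (r : ℝ) ^ (ε / 2)) (hlog0 : 0 < Real.log n) (hn : 2 * r ^ 2 ≤ n) :
    ((⌈(n : ℝ) ^ ((r : ℝ) ^ (ε / 8))⌉₊ : ℕ) : ℕ∞) ≤
      sqDim (DecisionLists n r) (((r : ℝ) * Real.log n) ^ (-(1 - ε))) := by
  obtain ⟨p, k, hp0, hp1, hfam, hk⟩ := coreFam ε hε hε1 n r h4 hr2 hr8 hrl hlog hlog0 hn
  refine le_trans ?_ (sqDim_ge (bw_isDist p hp0 hp1) hfam)
  exact_mod_cast Nat.ceil_le.mpr hk

theorem mainFam (c : ℝ) (hc : c < 1) :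
    ∃ δ : ℝ, 0 < δ ∧ ∃ K : ℝ, ∃ n₀ : ℕ, ∀ n r : ℕ, n₀ ≤ n → (Real.log n) ^ K ≤ r →
      2 * r ^ 2 ≤ n →
      ∃ (p : ℝ) (k : ℕ), 0 ≤ p ∧ p ≤ 1 ∧ HasFamily (DecisionLists n r)
        (prodW (fun _ : Fin n => bw p)) (((r : ℝ) * Real.log n) ^ (-c)) k ∧
        (n : ℝ) ^ ((r : ℝ) ^ δ) ≤ k := by
  set c' : ℝ := max c (1 / 2) with hc'
  have hc'1 : c' < 1 := max_lt hc (by norm_num)
  have hc'2 : 1 / 2 ≤ c' := le_max_right _ _
  set ε : ℝ := 1 - c' with hε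
  have hε0 : 0 < ε := by linarith
  have hε1 : ε ≤ 1 / 2 := by linarith
  obtain ⟨r₀, hr₀⟩ := param ε hε0 hε1
  have hK : 0 < 2 / ε := by positivity
  have hlogK : ∀ᶠ n : ℕ in atTop, r₀ ≤ (Real.log n) ^ (2 / ε) := by
    have t1 : Tendsto (fun n : ℕ => (Real.log n) ^ (2 / ε)) atTop atTop :=
      (tendsto_rpow_atTop hK).comp (Real.tendsto_log_atTop.comp tendsto_natCast_atTop_atTop)
    exact t1.eventually_ge_atTop r₀
  obtain ⟨n₁, hn₁⟩ := eventually_atTop.mp hlogK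
  refine ⟨ε / 8, by positivity, 2 / ε, max n₁ 4, ?_⟩
  intro n r hn hrn hn2
  have hn1 : n₁ ≤ n := le_trans (le_max_left _ _) hn
  have hn4 : 4 ≤ n := le_trans (le_max_right _ _) hn
  obtain ⟨h2, h8, hl⟩ := hr₀ r ((hn₁ n hn1).trans hrn)
  have hlog1 : 1 ≤ Real.log n := by
    have h4 : Real.log 4 ≤ Real.log n :=
      Real.log_le_log (by norm_num) (by exact_mod_cast hn4)
    have h5 : Real.log 4 = 2 * Real.log 2 := by
      rw [show (4 : ℝ) = 2 ^ 2 by norm_num, Real.log_pow]; norm_num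
    have := Real.log_two_gt_d9
    linarith
  have hr0 : (0 : ℝ) ≤ r := by linarith
  have hlog : Real.log n ≤ (r : ℝ) ^ (ε / 2) := by
    have h1 : ((Real.log n) ^ (2 / ε)) ^ (ε / 2) ≤ (r : ℝ) ^ (ε / 2) :=
      Real.rpow_le_rpow (Real.rpow_nonneg (by linarith) _) hrn (by positivity)
    rw [← Real.rpow_mul (by linarith)] at h1
    rwa [show 2 / ε * (ε / 2) = 1 by field_simp, Real.rpow_one] at h1
  obtain ⟨p, k, hp0, hp1, ⟨f, hfC, hfc⟩, hk⟩ :=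
    coreFam ε hε0 hε1 n r hn4 h2 h8 hl hlog (by linarith) hn2
  refine ⟨p, k, hp0, hp1, ⟨f, hfC, fun i j hij => (hfc i j hij).trans ?_⟩, hk⟩
  rw [show -(1 - ε) = -c' by rw [hε]; ring]
  apply Real.rpow_le_rpow_of_exponent_le
  · nlinarith
  · have := le_max_left c (1 / 2)
    linarith

theorem main (c : ℝ) (hc : c < 1) :
    ∃ δ : ℝ, 0 < δ ∧ ∃ K : ℝ, ∃ n₀ : ℕ, ∀ n r : ℕ, n₀ ≤ n → (Real.log n) ^ K ≤ r →
      2 * r ^ 2 ≤ n →
      ((⌈(n : ℝ) ^ ((r : ℝ) ^ δ)⌉₊ : ℕ) : ℕ∞) ≤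
        sqDim (DecisionLists n r) (((r : ℝ) * Real.log n) ^ (-c)) := by
  obtain ⟨δ, hδ, K, n₀, h⟩ := mainFam c hc
  refine ⟨δ, hδ, K, n₀, fun n r h1 h2 h3 => ?_⟩
  obtain ⟨p, k, hp0, hp1, hfam, hk⟩ := h n r h1 h2 h3
  refine le_trans ?_ (sqDim_ge (bw_isDist p hp0 hp1) hfam)
  exact_mod_cast Nat.ceil_le.mpr hk

end Pool.Agent.H74.SQ
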