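import Pool.Agent.H74.SQ.Prod

set_option autoImplicit false

namespace Pool.Agent.H74.SQ

open Finset

/-- indicator that the `i`-th bit has its rare value -/
def yy {n : ℕ} (s : Fin n → Bool) (i : Fin n) (x : Fin n → Bool) : ℝ := if x i = s i then 1 else 0

/-- weights: the rare value `s i` has probability `p i` -/
def wt {n : ℕ} (s : Fin n → Bool) (p : Fin n → ℝ) (i : Fin n) (b : Bool) : ℝ :=
  if b = s i then p i else 1 - p i

lemma wt_sum {n : ℕ} (s : Fin n → Bool) (p : Fin n → ℝ) (i : Fin n) :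
    wt s p i true + wt s p i false = 1 := by
  unfold wt
  cases s i <;> simp

lemma wt_isDist {n : ℕ} (s : Fin n → Bool) (p : Fin n → ℝ) (h0 : ∀ i, 0 ≤ p i)
    (h1 : ∀ i, p i ≤ 1) : IsDist (prodW (wt s p)) := by
  apply prodW_isDist
  · intro i b
    unfold wt
    split_ifs
    · exact h0 i
    · linarith [h1 i]
  · intro i; exact wt_sum s p i

lemma expect_one {n : ℕ} (w : Fin n → Bool → ℝ) (h1 : ∀ i, w i true + w i false = 1)
    (i : Fin n) (φ : Bool → ℝ) :
    expect (prodW w) (fun x => φ (x i)) = w i true * φ true + w i false * φ false := by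
  have h := expect_comp (n := n) (r := 1) w h1
    (fun _ => i) (fun a b _ => Subsingleton.elim a b)
    (fun u : Fin 1 → Bool => φ (u 0))
  rw [h]
  unfold expect
  rw [← (Equiv.funUnique (Fin 1) Bool).symm.sum_comp]
  simp [prodW]

lemma expect_wt {n : ℕ} (s : Fin n → Bool) (p : Fin n → ℝ) (i : Fin n) (φ : ℝ → ℝ) :
    expect (prodW (wt s p)) (fun x => φ (yy s i x)) = p i * φ 1 + (1 - p i) * φ 0 := by
  have := expect_one (wt s p) (wt_sum s p) i (fun b => φ (if b = s i then 1 else 0))
  unfold yy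
  rw [this]
  unfold wt
  cases s i <;> simp [add_comm]

lemma dep_yy {n : ℕ} (s : Fin n → Bool) (i : Fin n) (φ : ℝ → ℝ) :
    DependsOnly {i} (fun x => φ (yy s i x)) := by
  intro x y h
  simp only [yy, h i rfl]

lemma dep_sum {n : ℕ} (s : Fin n → Bool) (A : Finset (Fin n)) (c d : Fin n → ℝ) (φ : ℝ → ℝ) :
    DependsOnly (A : Set (Fin n)) (fun x => φ (∑ i ∈ A, c i * (yy s i x - d i))) := by
  intro x y h
  simp only
  congr 1
  refine Finset.sum_congr rfl fun i hi => ?_
  simp only [yy, h i hi]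

section
variable {n : ℕ} (s : Fin n → Bool) (p v : Fin n → ℝ)

/-- the centred linear form on `A` -/
def GG (A : Finset (Fin n)) (x : Fin n → Bool) : ℝ := ∑ i ∈ A, v i * (yy s i x - p i)

/-- its variance -/
def VV (A : Finset (Fin n)) : ℝ := ∑ i ∈ A, v i ^ 2 * (p i * (1 - p i))

lemma indep_pow (h0 : ∀ i, 0 ≤ p i) (h1 : ∀ i, p i ≤ 1) (A : Finset (Fin n)) (j : Fin n)
    (hj : j ∉ A) (k l : ℕ) :
    expect (prodW (wt s p)) (fun x => (GG s p v A x) ^ k * (yy s j x - p j) ^ l)
      = expect (prodW (wt s p)) (fun x => (GG s p v A x) ^ k)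
        * expect (prodW (wt s p)) (fun x => (yy s j x - p j) ^ l) := by
  apply expect_mul_indep _ (A : Set (Fin n)) {j}
  · rw [Set.disjoint_singleton_right]
    exact_mod_cast hj
  · exact dep_sum s A v p (fun z => z ^ k)
  · exact dep_yy s j (fun z => (z - p j) ^ l)
  · exact (wt_isDist s p h0 h1).2

lemma mom_one (j : Fin n) :
    expect (prodW (wt s p)) (fun x => (yy s j x - p j) ^ 1) = 0 := by
  rw [expect_wt s p j (fun z => (z - p j) ^ 1)]
  ring

lemma mom_two (j : Fin n) :
    expect (prodW (wt s p)) (fun x => (yy s j x - p j) ^ 2) = p j * (1 - p j) := by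
  rw [expect_wt s p j (fun z => (z - p j) ^ 2)]
  ring

lemma mom_four (h0 : ∀ i, 0 ≤ p i) (h1 : ∀ i, p i ≤ 1) (j : Fin n) :
    expect (prodW (wt s p)) (fun x => (yy s j x - p j) ^ 4) ≤ p j * (1 - p j) := by
  rw [expect_wt s p j (fun z => (z - p j) ^ 4)]
  have a := h0 j
  have b := h1 j
  have e : p j * (1 - p j) ^ 4 + (1 - p j) * (0 - p j) ^ 4
      = p j * (1 - p j) * (1 - 3 * (p j * (1 - p j))) := by ring
  rw [e]
  have : 0 ≤ p j * (1 - p j) := mul_nonneg a (by linarith)
  nlinarith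

lemma GG_insert (A : Finset (Fin n)) (j : Fin n) (hj : j ∉ A) (x : Fin n → Bool) :
    GG s p v (insert j A) x = GG s p v A x + v j * (yy s j x - p j) := by
  unfold GG
  rw [Finset.sum_insert hj, add_comm]

lemma VV_insert (A : Finset (Fin n)) (j : Fin n) (hj : j ∉ A) :
    VV p v (insert j A) = VV p v A + v j ^ 2 * (p j * (1 - p j)) := by
  unfold VV
  rw [Finset.sum_insert hj, add_comm]

lemma GG_mean (A : Finset (Fin n)) : expect (prodW (wt s p)) (fun x => GG s p v A x) = 0 := by
  unfold GG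
  rw [expect_sum]
  apply Finset.sum_eq_zero
  intro i _
  have h := mom_one s p i
  simp only [pow_one] at h
  rw [expect_mul_left, h, mul_zero]

lemma GG_two (h0 : ∀ i, 0 ≤ p i) (h1 : ∀ i, p i ≤ 1) (A : Finset (Fin n)) :
    expect (prodW (wt s p)) (fun x => GG s p v A x ^ 2) = VV p v A := by
  classical
  induction A using Finset.induction_on with
  | empty => simp [GG, VV, expect]
  | insert j A hj ih =>
    have e : (fun x => GG s p v (insert j A) x ^ 2)
        = fun x => GG s p v A x ^ 2 + ((2 * v j) * (GG s p v A x ^ 1 * (yy s j x - p j) ^ 1)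
          + (v j ^ 2) * ((GG s p v A x ^ 0) * (yy s j x - p j) ^ 2)) := by
      funext x
      rw [GG_insert s p v A j hj]
      ring
    rw [e, expect_add, expect_add, expect_mul_left, expect_mul_left, indep_pow s p v h0 h1 A j hj,
      indep_pow s p v h0 h1 A j hj, mom_one, mom_two, ih, VV_insert p v A j hj]
    have : expect (prodW (wt s p)) (fun x => GG s p v A x ^ 0) = 1 := by
      simp only [pow_zero]
      exact expect_const (wt_isDist s p h0 h1) 1
    rw [this]
    ring

lemma VV_nonneg (h0 : ∀ i, 0 ≤ p i) (h1 : ∀ i, p i ≤ 1) (A : Finset (Fin n)) : 0 ≤ VV p v A := by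
  apply Finset.sum_nonneg
  intro i _
  have := h0 i
  have := h1 i
  apply mul_nonneg (sq_nonneg _) (mul_nonneg (h0 i) (by linarith))

lemma GG_four (h0 : ∀ i, 0 ≤ p i) (h1 : ∀ i, p i ≤ 1) (T : ℝ) (A : Finset (Fin n))
    (hT : ∀ i ∈ A, |v i| ≤ T) :
    expect (prodW (wt s p)) (fun x => GG s p v A x ^ 4) ≤ 3 * VV p v A ^ 2 + T ^ 2 * VV p v A := by
  classical
  induction A using Finset.induction_on with
  | empty => simp [GG, VV, expect]
  | insert j A hj ih =>
    have hTj : |v j| ≤ T := hT j (Finset.mem_insert_self j A)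
    have ih' := ih (fun i hi => hT i (Finset.mem_insert_of_mem hi))
    have e : (fun x => GG s p v (insert j A) x ^ 4)
        = fun x => GG s p v A x ^ 4 + ((4 * v j) * (GG s p v A x ^ 3 * (yy s j x - p j) ^ 1)
          + ((6 * v j ^ 2) * ((GG s p v A x ^ 2) * (yy s j x - p j) ^ 2)
          + ((4 * v j ^ 3) * ((GG s p v A x ^ 1) * (yy s j x - p j) ^ 3)
          + (v j ^ 4) * ((GG s p v A x ^ 0) * (yy s j x - p j) ^ 4)))) := by
      funext x
      rw [GG_insert s p v A j hj]
      ring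
    rw [e, expect_add, expect_add, expect_add, expect_add, expect_mul_left, expect_mul_left,
      expect_mul_left, expect_mul_left, indep_pow s p v h0 h1 A j hj,
      indep_pow s p v h0 h1 A j hj, indep_pow s p v h0 h1 A j hj, indep_pow s p v h0 h1 A j hj,
      mom_one, mom_two, GG_two s p v h0 h1, VV_insert p v A j hj]
    have c1 : expect (prodW (wt s p)) (fun x => GG s p v A x ^ 1) = 0 := by
      simp only [pow_one]; exact GG_mean s p v A
    have c0 : expect (prodW (wt s p)) (fun x => GG s p v A x ^ 0) = 1 := by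
      simp only [pow_zero]
      exact expect_const (wt_isDist s p h0 h1) 1
    rw [c1, c0]
    have m4 := mom_four s p h0 h1 j
    have hv2 : v j ^ 2 ≤ T ^ 2 := sq_le_sq' (by linarith [(abs_le.mp hTj).1]) (abs_le.mp hTj).2
    have hV := VV_nonneg p v h0 h1 A
    have hu : 0 ≤ p j * (1 - p j) := mul_nonneg (h0 j) (by linarith [h1 j])
    have k1 : v j ^ 4 * expect (prodW (wt s p)) (fun x => (yy s j x - p j) ^ 4)
        ≤ T ^ 2 * (v j ^ 2 * (p j * (1 - p j))) := by
      calc v j ^ 4 * expect (prodW (wt s p)) (fun x => (yy s j x - p j) ^ 4)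
          ≤ v j ^ 4 * (p j * (1 - p j)) := mul_le_mul_of_nonneg_left m4 (by positivity)
        _ = v j ^ 2 * (v j ^ 2 * (p j * (1 - p j))) := by ring
        _ ≤ T ^ 2 * (v j ^ 2 * (p j * (1 - p j))) :=
          mul_le_mul_of_nonneg_right hv2 (mul_nonneg (sq_nonneg _) hu)
    have hb : 0 ≤ v j ^ 2 * (p j * (1 - p j)) := mul_nonneg (sq_nonneg _) hu
    nlinarith [sq_nonneg (v j ^ 2 * (p j * (1 - p j)))]

end

end Pool.Agent.H74.SQ
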