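import Pool.Agent.H74.SQ.Defs

set_option autoImplicit false

namespace Pool.Agent.H74.SQ

open Finset

/-- product weight -/
def prodW {n : ℕ} (w : Fin n → Bool → ℝ) (x : Fin n → Bool) : ℝ := ∏ i, w i (x i)

lemma sum_prod {n : ℕ} (g : Fin n → Bool → ℝ) :
    ∑ x : Fin n → Bool, ∏ i, g i (x i) = ∏ i, (g i true + g i false) := by
  have h := (Finset.prod_univ_sum (fun _ : Fin n => (Finset.univ : Finset Bool)) g)
  simp only [Fintype.piFinset_univ] at h
  rw [← h]
  simp [Fintype.sum_bool]

lemma prodW_isDist {n : ℕ} (w : Fin n → Bool → ℝ) (h0 : ∀ i b, 0 ≤ w i b)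
    (h1 : ∀ i, w i true + w i false = 1) : IsDist (prodW w) := by
  refine ⟨fun x => Finset.prod_nonneg fun i _ => h0 _ _, ?_⟩
  unfold prodW
  rw [sum_prod]
  simp [h1]

lemma expect_add {n : ℕ} (D f g : (Fin n → Bool) → ℝ) :
    expect D (fun x => f x + g x) = expect D f + expect D g := by
  simp [expect, mul_add, Finset.sum_add_distrib]

lemma expect_sub {n : ℕ} (D f g : (Fin n → Bool) → ℝ) :
    expect D (fun x => f x - g x) = expect D f - expect D g := by
  simp [expect, mul_sub, Finset.sum_sub_distrib]

lemma expect_mul_left {n : ℕ} (D f : (Fin n → Bool) → ℝ) (c : ℝ) :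
    expect D (fun x => c * f x) = c * expect D f := by
  simp only [expect, Finset.mul_sum]
  exact Finset.sum_congr rfl fun x _ => by ring

lemma expect_sum {n : ℕ} {ι : Type*} (s : Finset ι) (D : (Fin n → Bool) → ℝ)
    (f : ι → (Fin n → Bool) → ℝ) :
    expect D (fun x => ∑ i ∈ s, f i x) = ∑ i ∈ s, expect D (f i) := by
  simp only [expect, Finset.mul_sum]
  rw [Finset.sum_comm]

lemma expect_mono {n : ℕ} {D f g : (Fin n → Bool) → ℝ} (hD : IsDist D)
    (h : ∀ x, f x ≤ g x) : expect D f ≤ expect D g :=
  Finset.sum_le_sum fun x _ => mul_le_mul_of_nonneg_left (h x) (hD.1 x)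

lemma abs_expect_le {n : ℕ} {D f : (Fin n → Bool) → ℝ} (hD : IsDist D) :
    |expect D f| ≤ expect D (fun x => |f x|) := by
  unfold expect
  refine (Finset.abs_sum_le_sum_abs _ _).trans (Finset.sum_le_sum fun x _ => ?_)
  rw [abs_mul, abs_of_nonneg (hD.1 x)]

lemma expect_const {n : ℕ} {D : (Fin n → Bool) → ℝ} (hD : IsDist D) (c : ℝ) :
    expect D (fun _ => c) = c := by
  unfold expect
  rw [← Finset.sum_mul, hD.2, one_mul]

/-- `F` depends only on the coordinates in `A`. -/
def DependsOnly {n : ℕ} (A : Set (Fin n)) (F : (Fin n → Bool) → ℝ) : Prop :=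
  ∀ x y : Fin n → Bool, (∀ i ∈ A, x i = y i) → F x = F y

open Classical in
/-- swap the coordinates in `A` -/
noncomputable def swapE {n : ℕ} (A : Set (Fin n)) :
    ((Fin n → Bool) × (Fin n → Bool)) ≃ ((Fin n → Bool) × (Fin n → Bool)) where
  toFun p := (fun i => if i ∈ A then p.1 i else p.2 i, fun i => if i ∈ A then p.2 i else p.1 i)
  invFun p := (fun i => if i ∈ A then p.1 i else p.2 i, fun i => if i ∈ A then p.2 i else p.1 i)
  left_inv p := by
    ext i <;> by_cases h : i ∈ A <;> simp [h]
  right_inv p := by
    ext i <;> by_cases h : i ∈ A <;> simp [h]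

lemma expect_mul_indep {n : ℕ} (w : Fin n → Bool → ℝ) (A B : Set (Fin n))
    (hAB : Disjoint A B) (F G : (Fin n → Bool) → ℝ) (hF : DependsOnly A F)
    (hG : DependsOnly B G) (h1 : ∑ x, prodW w x = 1) :
    expect (prodW w) (fun x => F x * G x) = expect (prodW w) F * expect (prodW w) G := by
  classical
  have key : ∑ p : (Fin n → Bool) × (Fin n → Bool),
      prodW w p.1 * prodW w p.2 * (F p.1 * G p.1)
      = ∑ p : (Fin n → Bool) × (Fin n → Bool), prodW w p.1 * prodW w p.2 * (F p.1 * G p.2) := by
    rw [← Equiv.sum_comp (swapE A) (fun p => prodW w p.1 * prodW w p.2 * (F p.1 * G p.2))]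
    refine Finset.sum_congr rfl fun p _ => ?_
    have e1 : prodW w p.1 * prodW w p.2 =
        prodW w ((swapE A) p).1 * prodW w ((swapE A) p).2 := by
      unfold prodW
      rw [← Finset.prod_mul_distrib, ← Finset.prod_mul_distrib]
      refine Finset.prod_congr rfl fun i _ => ?_
      by_cases h : i ∈ A
      · simp [swapE, h]
      · simp [swapE, h, mul_comm]
    have e2 : F p.1 = F ((swapE A) p).1 := by
      apply hF
      intro i hi
      simp [swapE, hi]
    have e3 : G p.1 = G ((swapE A) p).2 := by
      apply hG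
      intro i hi
      have : i ∉ A := fun h => (Set.disjoint_left.mp hAB) h hi
      simp [swapE, this]
    rw [e1, e2, e3]
  rw [Fintype.sum_prod_type, Fintype.sum_prod_type] at key
  have l1 : expect (prodW w) (fun x => F x * G x)
      = ∑ x : Fin n → Bool, ∑ y : Fin n → Bool, prodW w x * prodW w y * (F x * G x) := by
    unfold expect
    refine Finset.sum_congr rfl fun x _ => ?_
    have : ∑ y : Fin n → Bool, prodW w x * prodW w y * (F x * G x)
        = (∑ y : Fin n → Bool, prodW w y) * (prodW w x * (F x * G x)) := by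
      rw [Finset.sum_mul]
      exact Finset.sum_congr rfl fun y _ => by ring
    rw [this, h1, one_mul]
  have l2 : expect (prodW w) F * expect (prodW w) G
      = ∑ x : Fin n → Bool, ∑ y : Fin n → Bool, prodW w x * prodW w y * (F x * G y) := by
    unfold expect
    rw [Finset.sum_mul_sum]
    refine Finset.sum_congr rfl fun x _ => Finset.sum_congr rfl fun y _ => by ring
  rw [l1, l2]
  exact key

/-- Pushforward to distinct coordinates. -/
lemma expect_comp {n r : ℕ} (w : Fin n → Bool → ℝ) (h1 : ∀ i, w i true + w i false = 1)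
    (y : Fin r → Fin n) (hy : Function.Injective y) (G : (Fin r → Bool) → ℝ) :
    expect (prodW w) (fun x => G (fun j => x (y j)))
      = expect (prodW (fun j => w (y j))) G := by
  classical
  have hG : ∀ u : Fin r → Bool, G u = ∑ u' : Fin r → Bool, G u' *
      ∏ j, (if u j = u' j then (1 : ℝ) else 0) := by
    intro u
    rw [Finset.sum_eq_single u]
    · simp
    · intro u' _ hne
      have : ∃ j, u j ≠ u' j := by
        by_contra hcon
        push Not at hcon
        exact hne (funext fun j => (hcon j).symm)
      obtain ⟨j, hj⟩ := this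
      have : ∏ j, (if u j = u' j then (1 : ℝ) else 0) = 0 :=
        Finset.prod_eq_zero (Finset.mem_univ j) (by simp [hj])
      rw [this, mul_zero]
    · simp
  have step : ∀ u' : Fin r → Bool,
      expect (prodW w) (fun x => ∏ j, (if x (y j) = u' j then (1 : ℝ) else 0))
        = ∏ j, w (y j) (u' j) := by
    intro u'
    -- write as product over all coordinates
    have hp : ∀ x : Fin n → Bool, (∏ j, (if x (y j) = u' j then (1 : ℝ) else 0))
        = ∏ i : Fin n, (if h : ∃ j, y j = i then (if x i = u' h.choose then (1 : ℝ) else 0) else 1) := by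
      intro x
      have : ∏ i : Fin n, (if h : ∃ j, y j = i then (if x i = u' h.choose then (1 : ℝ) else 0) else 1)
          = ∏ i ∈ Finset.univ.image y, (if h : ∃ j, y j = i then (if x i = u' h.choose then (1 : ℝ) else 0) else 1) := by
        symm
        apply Finset.prod_subset (Finset.subset_univ _)
        intro i _ hi
        have : ¬ ∃ j, y j = i := by
          rintro ⟨j, hj⟩
          exact hi (Finset.mem_image.mpr ⟨j, Finset.mem_univ _, hj⟩)
        simp [this]
      rw [this, Finset.prod_image (fun a _ b _ h => hy h)]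
      refine Finset.prod_congr rfl fun j _ => ?_
      have hex : ∃ j', y j' = y j := ⟨j, rfl⟩
      have hch : hex.choose = j := hy hex.choose_spec
      rw [dif_pos hex, hch]
    unfold expect prodW
    simp_rw [hp, ← Finset.prod_mul_distrib]
    rw [sum_prod (fun i b => w i b * (if h : ∃ j, y j = i then (if b = u' h.choose then (1 : ℝ) else 0) else 1))]
    have : ∏ i : Fin n, (w i true * (if h : ∃ j, y j = i then (if true = u' h.choose then (1 : ℝ) else 0) else 1)
        + w i false * (if h : ∃ j, y j = i then (if false = u' h.choose then (1 : ℝ) else 0) else 1))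
        = ∏ i ∈ Finset.univ.image y, (w i true * (if h : ∃ j, y j = i then (if true = u' h.choose then (1 : ℝ) else 0) else 1)
        + w i false * (if h : ∃ j, y j = i then (if false = u' h.choose then (1 : ℝ) else 0) else 1)) := by
      symm
      apply Finset.prod_subset (Finset.subset_univ _)
      intro i _ hi
      have : ¬ ∃ j, y j = i := by
        rintro ⟨j, hj⟩
        exact hi (Finset.mem_image.mpr ⟨j, Finset.mem_univ _, hj⟩)
      simp [this, h1]
    rw [this, Finset.prod_image (fun a _ b _ h => hy h)]
    refine Finset.prod_congr rfl fun j _ => ?_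
    have hex : ∃ j', y j' = y j := ⟨j, rfl⟩
    have hch : hex.choose = j := hy hex.choose_spec
    rw [dif_pos hex, dif_pos hex, hch]
    cases u' j <;> simp
  have : (fun x : Fin n → Bool => G (fun j => x (y j)))
      = fun x => ∑ u' : Fin r → Bool, G u' * ∏ j, (if x (y j) = u' j then (1 : ℝ) else 0) := by
    funext x
    exact hG _
  rw [this, expect_sum]
  unfold expect at step ⊢
  refine Finset.sum_congr rfl fun u' _ => ?_
  have e := expect_mul_left (prodW w) (fun x => ∏ j, (if x (y j) = u' j then (1 : ℝ) else 0)) (G u')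
  unfold expect at e
  rw [e, step u']
  unfold prodW
  ring

end Pool.Agent.H74.SQ
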