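import Pool.Agent.H74.SQ.Main
import Pool.Agent.H74.SQ.Count

set_option autoImplicit false

namespace Pool.Agent.H74.SQ

open Finset Filter

lemma log_three : 1 < Real.log 3 := by
  rw [Real.lt_log_iff_exp_lt (by norm_num)]
  have := Real.exp_one_lt_d9
  linarith

/-- trivial bound on the size of a family -/
lemma trivial_bound {n r k : ℕ} (D : (Fin n → Bool) → ℝ) (hD : IsDist D) (γ : ℝ) (hγ : γ < 1)
    (hfam : HasFamily (SparseHalfspaces n r) D γ k) : k ≤ 2 ^ (2 ^ n) := by
  classical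
  obtain ⟨f, hfC, hcorr⟩ := hfam
  have hinj : Function.Injective (fun (i : Fin k) (x : Fin n → Bool) => decide (f i x = 1)) := by
    intro i j hij
    by_contra hne
    have hfij : ∀ x, f i x = f j x := by
      intro x
      have h := congrFun hij x
      simp only [decide_eq_decide] at h
      have h1 := halfspace_sq (f i) (hfC i) x
      have h2 := halfspace_sq (f j) (hfC j) x
      have h1' : f i x = 1 ∨ f i x = -1 := sq_eq_one_iff.mp h1
      have h2' : f j x = 1 ∨ f j x = -1 := sq_eq_one_iff.mp h2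
      rcases h1' with a | a
      · rw [a, h.mp a]
      · rcases h2' with b | b
        · exact absurd (h.mpr b) (by rw [a]; norm_num)
        · rw [a, b]
    have : expect D (fun x => f i x * f j x) = 1 := by
      have e : (fun x => f i x * f j x) = fun _ => (1 : ℝ) := by
        funext x
        rw [← hfij x]
        have := halfspace_sq (f i) (hfC i) x
        linarith [sq (f i x)]
      rw [e, expect_const hD]
    have h2 := hcorr i j hne
    rw [this] at h2
    simp at h2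
    linarith
  have := Fintype.card_le_of_injective _ hinj
  simpa using this


theorem upper_format (a c : ℝ) (ha : 0 ≤ a) (hc : 1 + a ≤ c) :
    ∃ C : ℝ, ∀ n r : ℕ, 3 ≤ n → 1 ≤ r → r ≤ n → ∀ D μ : (Fin n → Bool) → ℝ,
      IsDist D → IsProduct μ → (∀ x, ((r : ℝ) * Real.log n) ^ (-a) * μ x ≤ D x) →
      ∀ k : ℕ, HasFamily (SparseHalfspaces n r) D (((r : ℝ) * Real.log n) ^ (-c)) k →
        (k : ℝ) ≤ (n : ℝ) ^ C := by
  set M : ℕ := ⌈Real.exp 115200⌉₊ with hM
  refine ⟨max (4 + 2 * a) ((2 ^ M : ℕ) : ℝ), ?_⟩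
  intro n r hn hr hrn D μ hD hμ hdom k hfam
  have hn3 : (3 : ℝ) ≤ n := by exact_mod_cast hn
  have hn0 : (0 : ℝ) < n := by linarith
  have hn1 : (1 : ℝ) ≤ n := by linarith
  have hr1 : (1 : ℝ) ≤ r := by exact_mod_cast hr
  have hrn' : (r : ℝ) ≤ n := by exact_mod_cast hrn
  have hlog1 : 1 < Real.log n := log_three.trans_le (Real.log_le_log (by norm_num) hn3)
  set L : ℝ := (r : ℝ) * Real.log n with hL
  have hL1 : 1 < L := by
    rw [hL]
    calc (1 : ℝ) < 1 * Real.log n := by linarith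
      _ ≤ r * Real.log n := mul_le_mul_of_nonneg_right hr1 (by linarith)
  have hL0 : 0 < L := by linarith
  by_cases hbig : 115200 ≤ Real.log n
  · -- large n
    have hlam : 0 < L ^ (-a) := Real.rpow_pos_of_pos hL0 _
    have hγle : L ^ (-c) ≤ L ^ (-a) / (115200 * r) := by
      have h1 : L ^ (-c) ≤ L ^ (-a - 1) :=
        Real.rpow_le_rpow_of_exponent_le hL1.le (by linarith)
      refine h1.trans ?_
      rw [Real.rpow_sub hL0, Real.rpow_one]
      apply div_le_div_of_nonneg_left hlam.le (by positivity)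
      rw [hL, mul_comm]
      exact mul_le_mul_of_nonneg_left hbig (by linarith)
    have hhalf : L ^ (-a) / (57600 * r) = 2 * (L ^ (-a) / (115200 * r)) := by
      field_simp; norm_num
    have hpos : 0 < L ^ (-a) / (115200 * r) := by positivity
    have hγlt : L ^ (-c) < L ^ (-a) / (57600 * r) := by
      rw [hhalf]; linarith
    have hup := upper hr D μ hD hμ (L ^ (-a)) hlam hdom (L ^ (-c))
      (Real.rpow_nonneg hL0.le _) hγlt hfam
    have h2 : (k : ℝ) ≤ (n + 1) / (L ^ (-a) / (115200 * r)) := by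
      refine hup.trans ?_
      apply div_le_div_of_nonneg_left (by positivity) hpos
      rw [hhalf]; linarith
    have hLn : L ≤ (n : ℝ) ^ (2 : ℝ) := by
      have : Real.log n ≤ n := (Real.log_le_sub_one_of_pos hn0).trans (by linarith)
      rw [hL, Real.rpow_two, sq]
      exact mul_le_mul hrn' this (by linarith) hn0.le
    have hLa : L ^ a ≤ (n : ℝ) ^ (2 * a) := by
      rw [Real.rpow_mul hn0.le]
      exact Real.rpow_le_rpow hL0.le hLn ha
    have h3 : (n + 1) / (L ^ (-a) / (115200 * r)) = (n + 1) * (115200 * r) * L ^ a := by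
      rw [Real.rpow_neg hL0.le]
      have : 0 < L ^ a := Real.rpow_pos_of_pos hL0 _
      field_simp
    rw [h3] at h2
    have hn115 : (115200 : ℝ) ≤ n := hbig.trans ((Real.log_le_sub_one_of_pos hn0).trans (by linarith))
    have h4 : ((n : ℝ) + 1) * (115200 * r) * L ^ a ≤ (n : ℝ) ^ (4 : ℝ) * (n : ℝ) ^ (2 * a) := by
      apply mul_le_mul _ hLa (Real.rpow_nonneg hL0.le _) (Real.rpow_nonneg hn0.le _)
      have e4 : (n : ℝ) ^ (4 : ℝ) = ((n : ℝ) * n) * (n * n) := by
        rw [show (4 : ℝ) = ((4 : ℕ) : ℝ) by norm_num, Real.rpow_natCast]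
        ring
      rw [e4]
      apply mul_le_mul
      · nlinarith
      · exact mul_le_mul hn115 hrn' (by linarith) hn0.le
      · positivity
      · positivity
    rw [← Real.rpow_add hn0] at h4
    refine (h2.trans h4).trans ?_
    exact Real.rpow_le_rpow_of_exponent_le hn1 (le_max_left _ _)
  · -- small n
    push Not at hbig
    have hnM : n ≤ M := by
      have h1 : (n : ℝ) ≤ Real.exp 115200 := by
        rw [← Real.exp_log hn0]
        exact Real.exp_le_exp.mpr hbig.le
      have h2 : (n : ℝ) ≤ M := h1.trans (Nat.le_ceil _)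
      exact_mod_cast h2
    have hγ1 : L ^ (-c) < 1 := Real.rpow_lt_one_of_one_lt_of_neg hL1 (by linarith)
    have htriv := trivial_bound D hD _ hγ1 hfam
    have h1 : (k : ℝ) ≤ ((2 : ℝ)) ^ (2 ^ M) := by
      have h2 : k ≤ 2 ^ (2 ^ M) :=
        htriv.trans (Nat.pow_le_pow_right (by norm_num) (Nat.pow_le_pow_right (by norm_num) hnM))
      exact_mod_cast h2
    have h2 : ((2 : ℝ)) ^ (2 ^ M) ≤ (n : ℝ) ^ (2 ^ M) :=
      pow_le_pow_left₀ (by norm_num) (by linarith) _
    have h3 : (n : ℝ) ^ (2 ^ M) = (n : ℝ) ^ (((2 ^ M : ℕ)) : ℝ) := (Real.rpow_natCast _ _).symm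
    rw [h3] at h2
    exact (h1.trans h2).trans (Real.rpow_le_rpow_of_exponent_le hn1 (le_max_right _ _))

theorem lower_product (c : ℝ) (hc : c < 1) (C : ℝ) :
    ∃ (n r : ℕ) (D : (Fin n → Bool) → ℝ) (k : ℕ), 3 ≤ n ∧ 1 ≤ r ∧ r ≤ n ∧ IsDist D ∧
      IsProduct D ∧ HasFamily (DecisionLists n r) D (((r : ℝ) * Real.log n) ^ (-c)) k ∧
      (n : ℝ) ^ C < k := by
  obtain ⟨δ, hδ, K, n₀, h⟩ := mainFam c hc
  -- choose n = 2 r ^ 2
  have e1 : ∀ᶠ r : ℕ in atTop, C < (r : ℝ) ^ δ :=
    ((tendsto_rpow_atTop hδ).comp tendsto_natCast_atTop_atTop).eventually_gt_atTop C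
  have e2 : ∀ᶠ r : ℕ in atTop, (Real.log ((2 * r ^ 2 : ℕ) : ℝ)) ^ K ≤ r := by
    have hlog : ∀ᶠ r : ℕ in atTop, Real.log ((2 * r ^ 2 : ℕ) : ℝ) ≤ 4 * Real.log r := by
      filter_upwards [eventually_ge_atTop 2] with r hr
      have hr2 : (2 : ℝ) ≤ r := by exact_mod_cast hr
      have : ((2 * r ^ 2 : ℕ) : ℝ) ≤ (r : ℝ) ^ 4 := by
        push_cast
        nlinarith [sq_nonneg ((r : ℝ)), mul_le_mul hr2 hr2 (by norm_num) (by linarith)]
      calc Real.log ((2 * r ^ 2 : ℕ) : ℝ) ≤ Real.log ((r : ℝ) ^ 4) :=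
            Real.log_le_log (by positivity) this
        _ = 4 * Real.log r := by rw [Real.log_pow]; norm_num
    have hK0 : 0 < max K 1 := lt_max_of_lt_right one_pos
    have hlittle := (isLittleO_log_rpow_atTop (show 0 < 1 / (max K 1) by positivity)).bound
      (show (0 : ℝ) < 1 / 4 by norm_num)
    have h4 : ∀ᶠ r : ℕ in atTop, 4 * Real.log r ≤ (r : ℝ) ^ (1 / (max K 1)) := by
      have := tendsto_natCast_atTop_atTop (R := ℝ) |>.eventually hlittle
      filter_upwards [this, eventually_ge_atTop 1] with r hr hr1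
      have hr1' : (1 : ℝ) ≤ r := by exact_mod_cast hr1
      rw [Real.norm_of_nonneg (Real.log_nonneg hr1'),
        Real.norm_of_nonneg (Real.rpow_nonneg (by linarith) _)] at hr
      linarith
    filter_upwards [hlog, h4, eventually_ge_atTop 2] with r h1 h2 hr2
    have hr2' : (2 : ℝ) ≤ r := by exact_mod_cast hr2
    have h8 : (3 : ℝ) ≤ ((2 * r ^ 2 : ℕ) : ℝ) := by
      push_cast
      nlinarith
    have hl1 : 1 ≤ Real.log ((2 * r ^ 2 : ℕ) : ℝ) :=
      log_three.le.trans (Real.log_le_log (by norm_num) h8)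
    calc (Real.log ((2 * r ^ 2 : ℕ) : ℝ)) ^ K ≤ (Real.log ((2 * r ^ 2 : ℕ) : ℝ)) ^ (max K 1) :=
          Real.rpow_le_rpow_of_exponent_le hl1 (le_max_left _ _)
      _ ≤ ((r : ℝ) ^ (1 / (max K 1))) ^ (max K 1) :=
          Real.rpow_le_rpow (by linarith) (h1.trans h2) hK0.le
      _ = r := by
          rw [← Real.rpow_mul (by linarith), one_div_mul_cancel hK0.ne', Real.rpow_one]
  obtain ⟨r, h1, h2, h3, h4⟩ :=
    (e1.and (e2.and ((eventually_ge_atTop 2).and (eventually_ge_atTop n₀)))).exists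
  have hnr : r ≤ 2 * r ^ 2 := by nlinarith
  obtain ⟨p, k, hp0, hp1, hfam, hk⟩ := h (2 * r ^ 2) r (h4.trans hnr) h2 le_rfl
  refine ⟨2 * r ^ 2, r, _, k, by nlinarith, by omega, hnr, bw_isDist p hp0 hp1,
    ⟨fun _ => p, fun _ => ⟨hp0, hp1⟩, fun x => ?_⟩, hfam, ?_⟩
  · simp [prodW, bw]
  · refine lt_of_lt_of_le ?_ hk
    apply Real.rpow_lt_rpow_of_exponent_lt _ h1
    have : 1 < 2 * r ^ 2 := by nlinarith
    exact_mod_cast this

end Pool.Agent.H74.SQ
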